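import Pool.Agent.Run7.h9.TP.Defs

/-!
# Weighted Mestre-Nagao sums: definition
-/

set_option autoImplicit false

namespace Run7.h876.MN

open NumberField IsDedekindDomain Polynomial
open Run7.h876.MM (nv SZ)
open Run7.h876.HY (GoodAt frobTrace)

open Classical in
/-- **The Mestre-Nagao sum** of length `Z` with the weight `W` of the curve `y² = f(x)`:
`-(1 / log Z) ∑ a_v (log Nv / Nv) W(log Nv / log Z)`, where `v` runs over the places of good reduction of
norm at most `Z` and `a_v` is the trace of Frobenius on `H¹`.  For `W = 1` this is the sum of Mestre and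
Nagao. -/
noncomputable def mestreNagao {K : Type} [Field K] [NumberField K] (Z : ℕ) (W : ℝ → ℝ) (f : (𝓞 K)[X]) : ℝ :=
  -((∑ v ∈ SZ K Z, if GoodAt f v then
      (frobTrace f v 1 : ℝ) * (Real.log (nv v) / nv v) * W (Real.log (nv v) / Real.log Z) else 0) / Real.log Z)

end Run7.h876.MN
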