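import Pool.Agent.Run7.h876.MN.Law
import Pool.Agent.Run7.h876.MN.Defs
import Pool.Agent.Run7.h9.TP.Link

/-!
# Weighted Mestre-Nagao sums of families of curves with marked points
-/

set_option autoImplicit false
set_option linter.unusedSectionVars false

namespace Run7.h876.MN

open NumberField IsDedekindDomain Finset Filter Topology
open Run7.h876.MM (nv kv two_le_nv nv_pos avg norm_avg_le SZ mem_SZ card_SZ instFieldKv instFintypeKv instDecKv)
open Run7.h876.EN Run7.h876.PW
open Run7.h876.HY (GoodAt Family frobTrace DD DD_nonneg N0 finite_bad)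
open Run7.h9.TP (ar ar_le ar_good ar_bad one_moments Cm one_le_Cm comp comp_rd avg_comp members smoothAll thin_all)
open Run7.h9.BS (prop Phi)

theorem av_eq {Ω : Type*} [Fintype Ω] (f : Ω → ℝ) : av Finset.univ f = (∑ t, f t) / Fintype.card Ω := by
  unfold av
  rw [Finset.card_univ]

/-- The bounds at finitely many places do not matter. -/
theorem exists_data {K : Type} [Field K] [NumberField K] {J : Type} [Fintype J] [DecidableEq J] {I : Type} [Fintype I]
    (a : I → ∀ v : HeightOneSpectrum (𝓞 K), (J → kv v) → ℝ) (r : I → ℝ) (D : I → I → ℝ) {C₀ : ℝ} (hC₀ : 0 ≤ C₀)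
    (a_le : ∀ i v t, |a i v t| ≤ C₀ * Real.sqrt (nv v)) {S : Set (HeightOneSpectrum (𝓞 K))} (hS : S.Finite)
    (h1 : ∀ i v, v ∉ S → |av Finset.univ (a i v) + r i| ≤ C₀ * hh v)
    (h2 : ∀ i j v, v ∉ S → |av Finset.univ (fun t => a i v t * a j v t) / nv v - D i j| ≤ C₀ * hh v) :
    ∃ 𝓣 : TraceData K J I, 𝓣.a = a ∧ 𝓣.r = r ∧ 𝓣.D = D := by
  classical
  obtain ⟨X, hX⟩ : ∃ X : HeightOneSpectrum (𝓞 K) → ℝ, X = fun v => (C₀ * Real.sqrt (nv v) + ∑ i, |r i| +
    (C₀ ^ 2 + ∑ i, ∑ j, |D i j|)) / hh v := ⟨_, rfl⟩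
  have hX0 : ∀ v, 0 ≤ X v := fun v => by
    have := (hh_facts v).1
    rw [hX]; positivity
  obtain ⟨C, hC⟩ : ∃ C, C = C₀ + ∑ v ∈ hS.toFinset, X v := ⟨_, rfl⟩
  have hCC : C₀ ≤ C := by
    rw [hC]
    have := Finset.sum_nonneg fun v (_ : v ∈ hS.toFinset) => hX0 v
    linarith
  have hCX : ∀ v ∈ S, X v ≤ C := fun v hv => by
    have := Finset.single_le_sum (f := X) (fun v _ => hX0 v) (hS.mem_toFinset.2 hv)
    rw [hC]
    linarith
  have hQ : ∀ v : HeightOneSpectrum (𝓞 K), 0 < Real.sqrt (nv v) := fun v => Real.sqrt_pos.2 (nv_pos v)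
  refine ⟨⟨a, r, D, C, hC₀.trans hCC, fun i v t => (a_le i v t).trans (mul_le_mul_of_nonneg_right hCC (hQ v).le), fun i v => ?_,
    fun i j v => ?_⟩, rfl, rfl, rfl⟩
  · by_cases hv : v ∈ S
    · rw [← div_le_iff₀ (hh_facts v).1]
      refine le_trans ?_ (hCX v hv)
      rw [hX]
      refine div_le_div_of_nonneg_right ?_ (hh_facts v).1.le
      have h3 : |av Finset.univ (a i v)| ≤ C₀ * Real.sqrt (nv v) := by
        rw [abs_le]
        constructor
        · rw [← av_const (Ω := J → kv v) (-(C₀ * Real.sqrt (nv v)))]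
          exact av_mono _ fun t => (abs_le.1 (a_le i v t)).1
        · exact av_le_const fun t => (abs_le.1 (a_le i v t)).2
      have h4 : |r i| ≤ ∑ i, |r i| := Finset.single_le_sum (f := fun i => |r i|) (fun i _ => abs_nonneg _) (Finset.mem_univ i)
      have h5 : 0 ≤ C₀ ^ 2 + ∑ i, ∑ j, |D i j| := by positivity
      have h6 := abs_add_le (av Finset.univ (a i v)) (r i)
      linarith
    · exact (h1 i v hv).trans (mul_le_mul_of_nonneg_right hCC (hh_facts v).1.le)
  · by_cases hv : v ∈ S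
    · rw [← div_le_iff₀ (hh_facts v).1]
      refine le_trans ?_ (hCX v hv)
      rw [hX]
      refine div_le_div_of_nonneg_right ?_ (hh_facts v).1.le
      have h3 : |av Finset.univ (fun t => a i v t * a j v t) / nv v| ≤ C₀ ^ 2 := by
        have h4 : ∀ t, |a i v t * a j v t| ≤ C₀ ^ 2 * nv v := fun t => by
          rw [abs_mul]
          calc |a i v t| * |a j v t| ≤ (C₀ * Real.sqrt (nv v)) * (C₀ * Real.sqrt (nv v)) :=
                mul_le_mul (a_le i v t) (a_le j v t) (abs_nonneg _) (by positivity)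
            _ = C₀ ^ 2 * (Real.sqrt (nv v) * Real.sqrt (nv v)) := by ring
            _ = _ := by rw [Real.mul_self_sqrt (nv_pos v).le]
        rw [abs_div, abs_of_pos (nv_pos v), div_le_iff₀ (nv_pos v), abs_le]
        constructor
        · rw [← av_const (Ω := J → kv v) (-(C₀ ^ 2 * (nv v : ℝ)))]
          exact av_mono _ fun t => (abs_le.1 (h4 t)).1
        · exact av_le_const fun t => (abs_le.1 (h4 t)).2
      have h4 : ∑ j, |D i j| ≤ ∑ i, ∑ j, |D i j| :=
        Finset.single_le_sum (f := fun i => ∑ j, |D i j|) (fun i _ => Finset.sum_nonneg fun j _ => abs_nonneg _) (Finset.mem_univ i)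
      have h4' : |D i j| ≤ ∑ j, |D i j| :=
        Finset.single_le_sum (f := fun j => |D i j|) (fun j _ => abs_nonneg _) (Finset.mem_univ j)
      have h5 : 0 ≤ C₀ * Real.sqrt (nv v) + ∑ i, |r i| := by
        have := (hQ v).le
        positivity
      have h6 := abs_sub (av Finset.univ (fun t => a i v t * a j v t) / nv v) (D i j)
      linarith
    · exact (h2 i j v hv).trans (mul_le_mul_of_nonneg_right hCC (hh_facts v).1.le)

section
variable {I : Type} [Fintype I] [DecidableEq I] {X : I → Type} [∀ i, Fintype (X i)] [∀ i, DecidableEq (X i)]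

theorem comp_one {k : Type} [Fintype k] [DecidableEq k] [Nonempty k] (i : I) (F : (X i → k) → ℝ) :
    av Finset.univ (fun t : (Σ i, X i) → k => F (comp i t)) = av Finset.univ F := by
  classical
  have h := avg_comp (k := k) (Function.update (fun (l : I) (_ : X l → k) => (1 : ℝ)) i F)
  have e1 : ∀ t : (Σ i, X i) → k, ∏ l, (Function.update (fun (l : I) (_ : X l → k) => (1 : ℝ)) i F) l (comp l t) = F (comp i t) := by
    intro t
    rw [Fintype.prod_eq_single i (fun l hl => by rw [Function.update_of_ne hl]), Function.update_self]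
  have e2 : ∏ l, ((∑ x, (Function.update (fun (l : I) (_ : X l → k) => (1 : ℝ)) i F) l x) / Fintype.card (X l → k)) =
      (∑ x, F x) / Fintype.card (X i → k) := by
    rw [Fintype.prod_eq_single i (fun l hl => by
      rw [Function.update_of_ne hl, Finset.sum_const, Finset.card_univ, nsmul_eq_mul, mul_one]
      exact div_self (by exact_mod_cast Fintype.card_pos.ne')), Function.update_self]
  rw [e2] at h
  simp only [e1] at h
  rw [av_eq, av_eq]
  exact h

theorem comp_two {k : Type} [Fintype k] [DecidableEq k] [Nonempty k] {i j : I} (hij : i ≠ j) (F : (X i → k) → ℝ) (G : (X j → k) → ℝ) :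
    av Finset.univ (fun t : (Σ i, X i) → k => F (comp i t) * G (comp j t)) = av Finset.univ F * av Finset.univ G := by
  classical
  obtain ⟨U, hU⟩ : ∃ U : ∀ l, (X l → k) → ℝ, U = Function.update (Function.update (fun (l : I) (_ : X l → k) => (1 : ℝ)) i F) j G :=
    ⟨_, rfl⟩
  have hUi : U i = F := by rw [hU, Function.update_of_ne hij, Function.update_self]
  have hUj : U j = G := by rw [hU, Function.update_self]
  have hUl : ∀ l, l ≠ i ∧ l ≠ j → U l = fun _ => 1 := fun l hl => by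
    rw [hU, Function.update_of_ne hl.2, Function.update_of_ne hl.1]
  have h := avg_comp (k := k) U
  have e1 : ∀ t : (Σ i, X i) → k, ∏ l, U l (comp l t) = F (comp i t) * G (comp j t) := by
    intro t
    rw [Fintype.prod_eq_mul i j hij (fun l hl => by rw [hUl l hl]), hUi, hUj]
  have e2 : ∏ l, ((∑ x, U l x) / Fintype.card (X l → k)) =
      (∑ x, F x) / Fintype.card (X i → k) * ((∑ x, G x) / Fintype.card (X j → k)) := by
    rw [Fintype.prod_eq_mul i j hij (fun l hl => by
      rw [hUl l hl, Finset.sum_const, Finset.card_univ, nsmul_eq_mul, mul_one]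
      exact div_self (by exact_mod_cast Fintype.card_pos.ne')), hUi, hUj]
  rw [e2] at h
  simp only [e1] at h
  rw [av_eq, av_eq, av_eq]
  exact h

end

section
variable {K : Type} [Field K] [NumberField K]
variable {I : Type} [Fintype I] [DecidableEq I] {J : I → Type} [∀ i, Fintype (J i)] [∀ i, DecidableEq (J i)]
variable (𝓕 : ∀ i, Family K (J i))

/-- the traces of the curves of several families -/
theorem family_data : ∃ 𝓣 : TraceData K (Σ i, Fin 2 ⊕ J i) I, 𝓣.a = (fun i v t => ar (𝓕 i) v (comp i t) 0) ∧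
    𝓣.r = (fun i => ((𝓕 i).rk : ℝ)) ∧ 𝓣.D = (fun i j => if i = j then 1 else 0) := by
  classical
  obtain ⟨C, hC⟩ : ∃ C : ℝ, C = 1 + ∑ i, (DD (𝓕 i).F₀.natDegree + Cm (𝓕 i) + (𝓕 i).rk) := ⟨_, rfl⟩
  have h0 : ∀ i, 0 ≤ DD (𝓕 i).F₀.natDegree + Cm (𝓕 i) + (𝓕 i).rk := fun i => by
    have := DD_nonneg (𝓕 i).F₀.natDegree
    have := one_le_Cm (𝓕 i)
    positivity
  have hle : ∀ i, DD (𝓕 i).F₀.natDegree + Cm (𝓕 i) + (𝓕 i).rk ≤ C := fun i => by
    have : DD (𝓕 i).F₀.natDegree + Cm (𝓕 i) + (𝓕 i).rk ≤ ∑ i, (DD (𝓕 i).F₀.natDegree + Cm (𝓕 i) + (𝓕 i).rk) :=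
      Finset.single_le_sum (f := fun i => DD (𝓕 i).F₀.natDegree + Cm (𝓕 i) + (𝓕 i).rk) (fun i _ => h0 i) (Finset.mem_univ i)
    rw [hC]
    linarith
  have hC1 : 1 ≤ C := by
    have := Finset.sum_nonneg fun i (_ : i ∈ Finset.univ) => h0 i
    rw [hC]
    linarith
  have hCC : C ≤ C ^ 2 := by nlinarith
  have hS : {v : HeightOneSpectrum (𝓞 K) | ∃ i, N0 (𝓕 i) ∈ v.asIdeal}.Finite := by
    have : {v : HeightOneSpectrum (𝓞 K) | ∃ i, N0 (𝓕 i) ∈ v.asIdeal} = ⋃ i, {v | N0 (𝓕 i) ∈ v.asIdeal} := by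
      ext v
      simp
    rw [this]
    exact Set.finite_iUnion fun i => finite_bad (𝓕 i)
  have hm : ∀ i v, v ∉ {v : HeightOneSpectrum (𝓞 K) | ∃ i, N0 (𝓕 i) ∈ v.asIdeal} →
      |av Finset.univ (fun t => ar (𝓕 i) v t 0) + (𝓕 i).rk| ≤ Cm (𝓕 i) / Real.sqrt (nv v) ∧
      |av Finset.univ (fun t => ar (𝓕 i) v t 0 ^ 2) / nv v - 1| ≤ Cm (𝓕 i) / Real.sqrt (nv v) := by
    intro i v hv
    have hvi : N0 (𝓕 i) ∉ v.asIdeal := fun h => hv ⟨i, h⟩
    obtain ⟨m1, m2, -, -⟩ := one_moments (𝓕 i) hvi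
    rw [av_eq, av_eq]
    exact ⟨m1, m2⟩
  have hsh : ∀ (v : HeightOneSpectrum (𝓞 K)) (c : ℝ), 0 ≤ c → c / Real.sqrt (nv v) ≤ c * hh v := fun v c hc => by
    rw [div_eq_mul_one_div]
    exact mul_le_mul_of_nonneg_left (hh_facts v).2.2.1 hc
  refine exists_data (C₀ := C ^ 2) _ _ _ (by positivity) (fun i v t => ?_) hS (fun i v hv => ?_) (fun i j v hv => ?_)
  · have h1 := ar_le (𝓕 i) v (comp i t) 0
    rw [zero_add, pow_one] at h1
    refine h1.trans (mul_le_mul_of_nonneg_right ?_ (Real.sqrt_nonneg _))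
    have := hle i
    have h3 : 0 ≤ Cm (𝓕 i) + (𝓕 i).rk := by
      have := one_le_Cm (𝓕 i)
      positivity
    linarith
  · have ec := comp_one (X := fun i => Fin 2 ⊕ J i) (k := kv v) i (fun x => ar (𝓕 i) v x 0)
    rw [ec]
    refine ((hm i v hv).1.trans (hsh v _ (by have := one_le_Cm (𝓕 i); linarith))).trans
      (mul_le_mul_of_nonneg_right ?_ (hh_facts v).1.le)
    have := hle i
    have h3 := DD_nonneg (𝓕 i).F₀.natDegree
    have h4 : (0 : ℝ) ≤ (𝓕 i).rk := by positivity
    linarith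
  · have h3 := DD_nonneg (𝓕 i).F₀.natDegree
    have h4 : (0 : ℝ) ≤ (𝓕 i).rk := by positivity
    have h5 := DD_nonneg (𝓕 j).F₀.natDegree
    have h6 : (0 : ℝ) ≤ (𝓕 j).rk := by positivity
    have h7 := hle i
    have h8 := hle j
    by_cases hij : i = j
    · subst hij
      rw [if_pos rfl]
      have e : (fun t : (Σ i, Fin 2 ⊕ J i) → kv v => ar (𝓕 i) v (comp i t) 0 * ar (𝓕 i) v (comp i t) 0) =
          fun t => (fun x => ar (𝓕 i) v x 0 ^ 2) (comp i t) := by
        funext t
        simp only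
        rw [sq]
      have ec := comp_one (X := fun i => Fin 2 ⊕ J i) (k := kv v) i (fun x => ar (𝓕 i) v x 0 ^ 2)
      rw [e, ec]
      refine ((hm i v hv).2.trans (hsh v _ (by have := one_le_Cm (𝓕 i); linarith))).trans
        (mul_le_mul_of_nonneg_right ?_ (hh_facts v).1.le)
      linarith
    · have ec := comp_two (X := fun i => Fin 2 ⊕ J i) (k := kv v) hij (fun x => ar (𝓕 i) v x 0) (fun x => ar (𝓕 j) v x 0)
      rw [if_neg hij, sub_zero, ec]
      obtain ⟨hQ1, hQQ⟩ := sqrt_facts v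
      have hq := nv_pos v
      have hQ0 : 0 < Real.sqrt (nv v) := by linarith
      have hb : ∀ l, |av Finset.univ (fun t => ar (𝓕 l) v t 0)| ≤ C := fun l => by
        have g1 := (hm l v hv).1
        have g2 : Cm (𝓕 l) / Real.sqrt (nv v) ≤ Cm (𝓕 l) := div_le_self (by have := one_le_Cm (𝓕 l); linarith) hQ1
        have g3 : |av Finset.univ (fun t => ar (𝓕 l) v t 0)| ≤ |av Finset.univ (fun t => ar (𝓕 l) v t 0) + (𝓕 l).rk| + (𝓕 l).rk := by
          have g4 : (0 : ℝ) ≤ (𝓕 l).rk := by positivity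
          have := abs_sub (av Finset.univ (fun t => ar (𝓕 l) v t 0) + (𝓕 l).rk) ((𝓕 l).rk : ℝ)
          rw [abs_of_nonneg g4] at this
          rwa [add_sub_cancel_right] at this
        have g5 := hle l
        have g6 := DD_nonneg (𝓕 l).F₀.natDegree
        linarith
      refine le_trans ?_ (hsh v _ (by positivity : (0 : ℝ) ≤ C ^ 2))
      rw [abs_div, abs_mul, abs_of_pos hq, div_le_div_iff₀ hq hQ0]
      calc |av Finset.univ (fun x => ar (𝓕 i) v x 0)| * |av Finset.univ (fun x => ar (𝓕 j) v x 0)| * Real.sqrt (nv v) ≤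
            C * C * Real.sqrt (nv v) := by
              have := hb i
              have := hb j
              gcongr
        _ ≤ C * C * nv v := by
              refine mul_le_mul_of_nonneg_left ?_ (by positivity)
              nth_rewrite 2 [← hQQ]
              exact le_mul_of_one_le_left hQ0.le hQ1
        _ = C ^ 2 * nv v := by ring

variable {𝓕}

/-- The weighted sums are the Mestre-Nagao sums. -/
theorem SW_family {𝓣 : TraceData K (Σ i, Fin 2 ⊕ J i) I} (ha : 𝓣.a = (fun i v t => ar (𝓕 i) v (comp i t) 0))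
    (W : I → ℝ → ℝ) (Z : ℕ) (t : (Σ i, Fin 2 ⊕ J i) → 𝓞 K) :
    SW 𝓣 W Z t = ∑ i, mestreNagao Z (W i) (members 𝓕 t i) := by
  classical
  unfold SW Y mestreNagao
  rw [Finset.sum_neg_distrib, Finset.sum_neg_distrib, Finset.sum_comm]
  congr 1
  refine Finset.sum_congr rfl fun i _ => ?_
  rw [Finset.sum_div]
  refine Finset.sum_congr rfl fun v hv => ?_
  rw [yy_eq hv, ha]
  simp only
  have h1 : (members 𝓕 t i) = (𝓕 i).member (comp i t) := rfl
  rw [comp_rd, h1]
  split_ifs with h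
  · rw [(ar_good 𝓕 i v (comp i t) h 0).1]
    unfold xx
    ring
  · rw [(ar_bad 𝓕 i v (comp i t) h 0).1]
    ring

theorem vI_family {𝓣 : TraceData K (Σ i, Fin 2 ⊕ J i) I} (hD : 𝓣.D = (fun i j => if i = j then 1 else 0))
    (W : I → ℝ → ℝ) (hW : ∀ i, Continuous (W i)) : vI 𝓣 W = ∑ i, ∫ y in (0 : ℝ)..1, y * W i y ^ 2 := by
  unfold vI
  rw [← intervalIntegral.integral_finsetSum (f := fun i y => y * W i y ^ 2)
    (fun i _ => (continuous_id.mul ((hW i).pow 2)).intervalIntegrable _ _)]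
  congr 1
  funext y
  rw [hD, Finset.mul_sum]
  refine Finset.sum_congr rfl fun i _ => ?_
  rw [Finset.sum_eq_single i (fun j _ hj => by
    simp only
    rw [if_neg (fun h => hj h.symm)]
    ring) (fun h => absurd (Finset.mem_univ i) h)]
  simp only [if_true]
  ring

theorem mI_family {𝓣 : TraceData K (Σ i, Fin 2 ⊕ J i) I} (hr : 𝓣.r = (fun i => ((𝓕 i).rk : ℝ)))
    (W : I → ℝ → ℝ) (hW : ∀ i, Continuous (W i)) : mI 𝓣 W = ∑ i, (𝓕 i).rk * ∫ y in (0 : ℝ)..1, W i y := by
  unfold mI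
  rw [intervalIntegral.integral_finsetSum (f := fun i y => 𝓣.r i * W i y) (fun i _ => ((hW i).const_mul _).intervalIntegrable _ _)]
  refine Finset.sum_congr rfl fun i _ => ?_
  rw [hr, intervalIntegral.integral_const_mul]

end

/-! ### good weights -/

/-- Weights of mass one and small variance. -/
theorem good_weight {δ : ℝ} (hδ : 0 < δ) : ∃ W : ℝ → ℝ, Continuous W ∧ (∫ y in (0 : ℝ)..1, W y) = 1 ∧
    (∫ y in (0 : ℝ)..1, y * W y ^ 2) ≤ δ := by
  obtain ⟨L, hL⟩ : ∃ L : ℝ, L = max 1 (1 / δ) := ⟨_, rfl⟩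
  have hL1 : 1 ≤ L := by rw [hL]; exact le_max_left _ _
  have hLδ : 1 / δ ≤ L := by rw [hL]; exact le_max_right _ _
  have hL0 : 0 < L := by linarith
  -- `s` with `log ((1 + s) / s) = L`
  obtain ⟨s, hs⟩ : ∃ s : ℝ, s = 1 / (Real.exp L - 1) := ⟨_, rfl⟩
  have hexp : 1 < Real.exp L := Real.one_lt_exp_iff.2 hL0
  have hs0 : 0 < s := by rw [hs]; exact one_div_pos.2 (by linarith)
  have hsL : Real.log ((1 + s) / s) = L := by
    have : (1 + s) / s = Real.exp L := by
      rw [hs]
      have : Real.exp L - 1 ≠ 0 := by linarith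
      field_simp
      ring
    rw [this, Real.log_exp]
  have hI : ∫ y in (0 : ℝ)..1, 1 / (|y| + s) = L := by
    have h1 : ∫ y in (0 : ℝ)..1, 1 / (|y| + s) = ∫ y in (0 : ℝ)..1, 1 / (y + s) := by
      refine intervalIntegral.integral_congr fun y hy => ?_
      rw [Set.uIcc_of_le zero_le_one] at hy
      rw [abs_of_nonneg hy.1]
    rw [h1, intervalIntegral.integral_comp_add_right (fun u => 1 / u) s, zero_add, integral_one_div_of_pos hs0 (by linarith), hsL]
  have hc : Continuous fun y : ℝ => 1 / (|y| + s) :=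
    continuous_const.div (continuous_abs.add continuous_const) fun y => by
      have := abs_nonneg y
      linarith
  refine ⟨fun y => (1 / L) * (1 / (|y| + s)), hc.const_mul _, ?_, ?_⟩
  · rw [intervalIntegral.integral_const_mul, hI, one_div, inv_mul_cancel₀ hL0.ne']
  · have h1 : ∫ y in (0 : ℝ)..1, y * ((1 / L) * (1 / (|y| + s))) ^ 2 ≤ ∫ y in (0 : ℝ)..1, (1 / L ^ 2) * (1 / (|y| + s)) := by
      refine intervalIntegral.integral_mono_on zero_le_one
        ((continuous_id.mul ((hc.const_mul _).pow 2)).intervalIntegrable _ _) ((hc.const_mul _).intervalIntegrable _ _) fun y hy => ?_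
      rw [abs_of_nonneg hy.1]
      have h2 : 0 < y + s := by linarith [hy.1]
      have h3 : y * ((1 / L) * (1 / (y + s))) ^ 2 = (1 / L ^ 2) * (1 / (y + s)) * (y / (y + s)) := by
        field_simp
      rw [h3]
      refine mul_le_of_le_one_right (by positivity) ?_
      rw [div_le_one h2]
      linarith
    refine h1.trans ?_
    rw [intervalIntegral.integral_const_mul, hI]
    have h2 : 1 / L ^ 2 * L = 1 / L := by field_simp
    rw [h2, div_le_iff₀ hL0]
    rw [div_le_iff₀ hδ] at hLδ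
    linarith

theorem weight_pos {W : ℝ → ℝ} (hW : Continuous W) (h1 : (∫ y in (0 : ℝ)..1, W y) ≠ 0) : 0 < ∫ y in (0 : ℝ)..1, y * W y ^ 2 := by
  have hc : Continuous fun y : ℝ => y * W y ^ 2 := continuous_id.mul (hW.pow 2)
  refine intervalIntegral.integral_pos zero_lt_one hc.continuousOn (fun y hy => mul_nonneg hy.1.le (sq_nonneg _)) ?_
  by_contra hcon
  push Not at hcon
  apply h1
  have h2 : ∀ y ∈ Set.Ioc (0 : ℝ) 1, W y = 0 := by
    intro y hy
    have h3 := hcon y ⟨hy.1.le, hy.2⟩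
    by_contra h4
    have h5 : 0 < W y ^ 2 := by positivity
    have h6 := mul_pos hy.1 h5
    linarith
  rw [intervalIntegral.integral_of_le zero_le_one]
  exact MeasureTheory.setIntegral_eq_zero_of_forall_eq_zero h2

end Run7.h876.MN
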