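import Pool.Agent.Run7.h876.MN.Fam

/-!
# Weighted Mestre-Nagao sums of families of curves with marked points: the theorems
-/

set_option autoImplicit false
set_option linter.unusedSectionVars false

namespace Run7.h876.MN

open NumberField IsDedekindDomain Finset Filter Topology
open Run7.h876.MM (nv kv two_le_nv nv_pos avg norm_avg_le SZ mem_SZ card_SZ instFieldKv instFintypeKv instDecKv)
open Run7.h876.EN Run7.h876.PW
open Run7.h876.HY (GoodAt Family frobTrace DD DD_nonneg N0 finite_bad)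
open Run7.h9.TP (ar ar_le ar_good ar_bad one_moments Cm one_le_Cm comp comp_rd avg_comp members smoothAll thin_all)
open Run7.h9.BS (prop Phi)

section
variable {K : Type} [Field K] [NumberField K] {J : Type} [Fintype J] [DecidableEq J] {I : Type} [Fintype I]
variable {ι : Type} [Fintype ι] [DecidableEq ι] (ω : Module.Basis ι ℤ (𝓞 K)) {G : Set (J → 𝓞 K)} {Cb : ℝ}

/-- The union bound. -/
theorem prop_all [Nonempty I] (hG : Thin ω G Cb) {δ : ℝ} : ∃ Z₀ : ℕ, ∀ Z : ℕ, Z₀ ≤ Z → ∀ H : J → ℕ, (∀ j, Z ≤ H j) →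
    ∀ P : I → (J → 𝓞 K) → Prop, (∀ i, 1 - δ ≤ prop ω H G (P i)) → 1 - Fintype.card I * δ ≤ prop ω H G (fun t => ∀ i, P i t) := by
  classical
  obtain ⟨Z₀, hZ₀⟩ := nonempty_thick ω hG
  refine ⟨Z₀, fun Z hZ H hH P hP => ?_⟩
  have hne := hZ₀ Z hZ H hH
  obtain ⟨S, hS⟩ : ∃ S, S = (box ι H).filter fun c => tuple ω c ∈ G := ⟨_, rfl⟩
  have hpos : (0 : ℝ) < S.card := by
    rw [hS]
    exact_mod_cast hne.card_pos
  have hprop : ∀ Q : (J → 𝓞 K) → Prop, prop ω H G Q = ((S.filter fun c => Q (tuple ω c)).card : ℝ) / S.card := by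
    intro Q
    unfold prop
    rw [hS, Finset.filter_filter]
  obtain ⟨Q, hQ⟩ : ∃ Q : (J → 𝓞 K) → Prop, Q = fun t => ∀ i, P i t := ⟨_, rfl⟩
  rw [← hQ, hprop, le_div_iff₀ hpos]
  have h1 : ∀ i, ((S.filter fun c => ¬ P i (tuple ω c)).card : ℝ) ≤ δ * S.card := by
    intro i
    have h2 := hP i
    rw [hprop, le_div_iff₀ hpos] at h2
    have h3 : ((S.filter fun c => P i (tuple ω c)).card : ℝ) + ((S.filter fun c => ¬ P i (tuple ω c)).card : ℝ) = S.card := by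
      exact_mod_cast Finset.card_filter_add_card_filter_not (s := S) (fun c => P i (tuple ω c))
    linarith
  have h4 : (S.card : ℝ) ≤ ((S.filter fun c => Q (tuple ω c)).card : ℝ) + ∑ i, ((S.filter fun c => ¬ P i (tuple ω c)).card : ℝ) := by
    have h5 : S ⊆ (S.filter fun c => Q (tuple ω c)) ∪ Finset.univ.biUnion fun i => S.filter fun c => ¬ P i (tuple ω c) := by
      intro c hc
      rw [Finset.mem_union]
      by_cases h : ∀ i, P i (tuple ω c)
      · exact Or.inl (Finset.mem_filter.2 ⟨hc, by rw [hQ]; exact h⟩)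
      · push Not at h
        obtain ⟨i, hi⟩ := h
        exact Or.inr (Finset.mem_biUnion.2 ⟨i, Finset.mem_univ i, Finset.mem_filter.2 ⟨hc, hi⟩⟩)
    have h6 := (Finset.card_le_card h5).trans (Finset.card_union_le _ _)
    have h7 : (Finset.univ.biUnion fun i => S.filter fun c => ¬ P i (tuple ω c)).card ≤ ∑ i, (S.filter fun c => ¬ P i (tuple ω c)).card :=
      Finset.card_biUnion_le
    have h8 := h6.trans (Nat.add_le_add_left h7 _)
    exact_mod_cast h8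
  have h5 : ∑ i, ((S.filter fun c => ¬ P i (tuple ω c)).card : ℝ) ≤ Fintype.card I * (δ * S.card) := by
    refine (Finset.sum_le_sum fun i _ => h1 i).trans (le_of_eq ?_)
    rw [Finset.sum_const, Finset.card_univ, nsmul_eq_mul]
  have h6 : (1 - (Fintype.card I : ℝ) * δ) * S.card = S.card - Fintype.card I * (δ * S.card) := by ring
  rw [h6]
  linarith

end

section
variable {K : Type} [Field K] [NumberField K]
variable {I : Type} [Fintype I] [DecidableEq I] {J : I → Type} [∀ i, Fintype (J i)] [∀ i, DecidableEq (J i)]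
variable (𝓕 : ∀ i, Family K (J i)) {ι : Type} [Fintype ι] [DecidableEq ι] (ω : Module.Basis ι ℤ (𝓞 K))

theorem thin_nonneg : 0 ≤ ∑ i, (((𝓕 i).F₀.natDegree + (𝓕 i).r : ℕ) : ℝ) := Finset.sum_nonneg fun _ _ => Nat.cast_nonneg _

/-- **The joint law.** -/
theorem mn_clt (W : I → ℝ → ℝ) (hW : ∀ i, Continuous (W i)) (hV : 0 < ∑ i, ∫ y in (0 : ℝ)..1, y * W i y ^ 2) (a : ℝ) {ε : ℝ} (hε : 0 < ε) :
    ∃ C Z₀ : ℕ, ∀ Z : ℕ, Z₀ ≤ Z → ∀ H : (Σ i, Fin 2 ⊕ J i) → ℕ, (∀ j, Z ^ C ≤ H j) →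
      |prop ω H (smoothAll 𝓕) (fun t => ∑ i, mestreNagao Z (W i) (members 𝓕 t i) ≤
        ∑ i, (𝓕 i).rk * (∫ y in (0 : ℝ)..1, W i y) + a * Real.sqrt (∑ i, ∫ y in (0 : ℝ)..1, y * W i y ^ 2)) - Phi a| ≤ ε := by
  obtain ⟨𝓣, ha, hr, hD⟩ := family_data 𝓕
  have h := clt' ω 𝓣 W hW (thin_nonneg 𝓕) (thin_all 𝓕 ω) (by rw [vI_family hD W hW]; exact hV) a hε
  simp only [SW_family ha, vI_family hD W hW, mI_family hr W hW] at h
  exact h

/-- **Rank detection.** -/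
theorem mn_near (W : ℝ → ℝ) (hW : Continuous W) (h1 : (∫ y in (0 : ℝ)..1, W y) = 1) (i : I) {ε : ℝ} (hε : 0 < ε) :
    ∃ C Z₀ : ℕ, ∀ Z : ℕ, Z₀ ≤ Z → ∀ H : (Σ i, Fin 2 ⊕ J i) → ℕ, (∀ j, Z ^ C ≤ H j) →
      |prop ω H (smoothAll 𝓕) (fun t => |mestreNagao Z W (members 𝓕 t i) - (𝓕 i).rk| < 1 / 2) -
        (Phi (1 / 2 / Real.sqrt (∫ y in (0 : ℝ)..1, y * W y ^ 2)) - Phi (-(1 / 2 / Real.sqrt (∫ y in (0 : ℝ)..1, y * W y ^ 2))))| ≤ ε := by
  obtain ⟨𝓣, ha, hr, hD⟩ := family_data 𝓕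
  obtain ⟨U, hU⟩ : ∃ U : I → ℝ → ℝ, U = fun l => if l = i then W else fun _ => 0 := ⟨_, rfl⟩
  have hUi : U i = W := by rw [hU]; simp
  have hUl : ∀ l, l ≠ i → U l = fun _ => 0 := fun l hl => by rw [hU]; simp [hl]
  have hUc : ∀ l, Continuous (U l) := fun l => by
    by_cases hl : l = i
    · rw [hl, hUi]; exact hW
    · rw [hUl l hl]; exact continuous_const
  have e1 : vI 𝓣 U = ∫ y in (0 : ℝ)..1, y * W y ^ 2 := by
    rw [vI_family hD U hUc, Fintype.sum_eq_single i (fun l hl => by rw [hUl l hl]; simp), hUi]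
  have e2 : mI 𝓣 U = (𝓕 i).rk := by
    rw [mI_family hr U hUc, Fintype.sum_eq_single i (fun l hl => by rw [hUl l hl]; simp), hUi, h1, mul_one]
  have e3 : ∀ Z t, SW 𝓣 U Z t = mestreNagao Z W (members 𝓕 t i) := by
    intro Z t
    rw [SW_family ha, Fintype.sum_eq_single i (fun l hl => by rw [hUl l hl]; unfold mestreNagao; simp), hUi]
  have h := law_near ω 𝓣 U hUc (thin_nonneg 𝓕) (thin_all 𝓕 ω) (by rw [e1]; exact weight_pos hW (by rw [h1]; exact one_ne_zero))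
    (b := 1 / 2) (by norm_num) hε
  simp only [e1, e2, e3] at h
  exact h

/-- **Weights which detect the rank for almost all members.** -/
theorem mn_good {ε : ℝ} (hε : 0 < ε) : ∃ W : ℝ → ℝ, Continuous W ∧ (∫ y in (0 : ℝ)..1, W y) = 1 ∧
    ∀ (ι : Type) [Fintype ι] [DecidableEq ι] (ω : Module.Basis ι ℤ (𝓞 K)), ∃ C Z₀ : ℕ, ∀ Z : ℕ, Z₀ ≤ Z →
      ∀ H : (Σ i, Fin 2 ⊕ J i) → ℕ, (∀ j, Z ^ C ≤ H j) →
      1 - ε ≤ prop ω H (smoothAll 𝓕) (fun t => ∀ i, |mestreNagao Z W (members 𝓕 t i) - (𝓕 i).rk| < 1 / 2) := by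
  classical
  obtain ⟨δ, hδ⟩ : ∃ δ : ℝ, δ = ε / (2 * (Fintype.card I + 1)) := ⟨_, rfl⟩
  have hδ0 : 0 < δ := by rw [hδ]; positivity
  obtain ⟨R, hR0, hR⟩ := Phi_large hδ0
  obtain ⟨W, hW, h1, h2⟩ := good_weight (δ := (1 / (2 * R)) ^ 2) (by positivity)
  refine ⟨W, hW, h1, fun ι _ _ ω => ?_⟩
  have hV := weight_pos hW (by rw [h1]; exact one_ne_zero)
  have hσ : 0 < Real.sqrt (∫ y in (0 : ℝ)..1, y * W y ^ 2) := Real.sqrt_pos.2 hV
  have hσ2 : Real.sqrt (∫ y in (0 : ℝ)..1, y * W y ^ 2) ≤ 1 / (2 * R) := by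
    rw [Real.sqrt_le_left (by positivity)]
    exact h2
  have hb : R ≤ 1 / 2 / Real.sqrt (∫ y in (0 : ℝ)..1, y * W y ^ 2) := by
    rw [le_div_iff₀ hσ]
    calc R * Real.sqrt (∫ y in (0 : ℝ)..1, y * W y ^ 2) ≤ R * (1 / (2 * R)) := mul_le_mul_of_nonneg_left hσ2 hR0.le
      _ = 1 / 2 := by field_simp
  have hΦ := hR _ hb
  rcases isEmpty_or_nonempty I with hI | hI
  · obtain ⟨Z₀, hZ₀⟩ := nonempty_thick ω (thin_all 𝓕 ω)
    refine ⟨1, Z₀, fun Z hZ H hH => ?_⟩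
    have hne := hZ₀ Z hZ H (fun j => by simpa using hH j)
    have e : prop ω H (smoothAll 𝓕) (fun t => ∀ i, |mestreNagao Z W (members 𝓕 t i) - (𝓕 i).rk| < 1 / 2) = 1 := by
      unfold prop
      have : ∀ c, (∀ i, |mestreNagao Z W (members 𝓕 (tuple ω c) i) - (𝓕 i).rk| < 1 / 2) ↔ True := fun c =>
        iff_true_intro fun i => (hI.false i).elim
      simp only [this, and_true]
      exact div_self (by exact_mod_cast hne.card_pos.ne')
    rw [e]
    linarith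
  · choose C Z₀ h using fun i => mn_near 𝓕 ω W hW h1 i hδ0
    obtain ⟨Z₁, hZ₁⟩ := prop_all (I := I) ω (thin_all 𝓕 ω) (δ := 2 * δ)
    refine ⟨∑ i, C i + 1, max (max 1 Z₁) (∑ i, Z₀ i), fun Z hZ H hH => ?_⟩
    have g1 : 1 ≤ Z := ((le_max_left _ _).trans (le_max_left _ _)).trans hZ
    have g2 : Z₁ ≤ Z := ((le_max_right _ _).trans (le_max_left _ _)).trans hZ
    have g3 : ∀ i, Z₀ i ≤ Z := fun i =>
      ((Finset.single_le_sum (f := Z₀) (fun _ _ => Nat.zero_le _) (Finset.mem_univ i)).trans (le_max_right _ _)).trans hZ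
    have g4 : ∀ i j, Z ^ C i ≤ H j := fun i j => by
      refine (Nat.pow_le_pow_right g1 ?_).trans (hH j)
      exact (Finset.single_le_sum (f := C) (fun _ _ => Nat.zero_le _) (Finset.mem_univ i)).trans (Nat.le_succ _)
    have h3 := hZ₁ Z g2 H (fun j => by
      refine le_trans ?_ (hH j)
      calc Z = Z ^ 1 := (pow_one _).symm
        _ ≤ _ := Nat.pow_le_pow_right g1 (by omega))
      (fun i t => |mestreNagao Z W (members 𝓕 t i) - (𝓕 i).rk| < 1 / 2) (fun i => by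
        have h4 := (abs_le.1 (h i Z (g3 i) H (g4 i))).1
        linarith)
    refine le_trans ?_ h3
    have h5 : (Fintype.card I : ℝ) * (2 * δ) ≤ ε := by
      rw [hδ]
      have h6 : (0 : ℝ) < Fintype.card I + 1 := by positivity
      have h7 : (Fintype.card I : ℝ) * (2 * (ε / (2 * (Fintype.card I + 1)))) = ε * (Fintype.card I / (Fintype.card I + 1)) := by
        field_simp
      rw [h7]
      refine mul_le_of_le_one_right hε.le ?_
      rw [div_le_one h6]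
      linarith
    linarith

end

end Run7.h876.MN
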