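import Pool.Agent.Run7.h876.MN.Main

/-!
# The central limit theorem for weighted sums of local functions
-/

set_option autoImplicit false
set_option linter.unusedSectionVars false

namespace Run7.h876.MN

open NumberField IsDedekindDomain Finset Filter Topology MeasureTheory
open Run7.h876.MM (nv kv two_le_nv nv_pos avg norm_avg_le SZ mem_SZ card_SZ instFieldKv instFintypeKv instDecKv)
open Run7.h876.EN Run7.h876.PW
open Run7.h9.BS (cv cv_pos prop Phi emp emp_prob emp_charFun emp_Iic)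

section
variable {K : Type} [Field K] [NumberField K] {J : Type} [Fintype J] [DecidableEq J] {I : Type} [Fintype I]
variable {ι : Type} [Fintype ι] [DecidableEq ι] (ω : Module.Basis ι ℤ (𝓞 K)) {G : Set (J → 𝓞 K)} {Cb : ℝ}
variable (𝓣 : TraceData K J I) (W : I → ℝ → ℝ)

theorem SW_eq (Z : ℕ) (t : J → 𝓞 K) : SW 𝓣 W Z t = SB (XC 𝓣 W Z) (SZ K Z) t + ∑ v ∈ SZ K Z, mm 𝓣 W Z v := by
  unfold SW SB XC
  rw [Finset.sum_sub_distrib]
  ring

theorem mean_mul (H : J → ℕ) (c : ℂ) (f : (J → 𝓞 K) → ℂ) : mean ω H G (fun t => c * f t) = c * mean ω H G f := by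
  unfold mean
  rw [← Finset.mul_sum, mul_div_assoc]

/-- **The characteristic function.** -/
theorem box_char' (hW : ∀ i, Continuous (W i)) (hCb : 0 ≤ Cb) (hG : Thin ω G Cb) {ε : ℝ} (hε : 0 < ε) :
    ∃ C Z₀ : ℕ, ∀ Z : ℕ, Z₀ ≤ Z → ∀ H : J → ℕ, (∀ j, Z ^ C ≤ H j) →
    ‖mean ω H G (fun t => Complex.exp (Complex.I * (SW 𝓣 W Z t : ℂ))) -
      Complex.exp (Complex.I * (mI 𝓣 W : ℂ) - (vI 𝓣 W : ℂ) / 2)‖ ≤ ε := by
  obtain ⟨B, hB0, hB⟩ := exists_B W hW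
  have hA := cA_nonneg (𝓣 := 𝓣) hB0
  obtain ⟨A, hAd⟩ : ∃ A, A = 2 * cA 𝓣 B := ⟨_, rfl⟩
  have hA0 : 0 ≤ A := by rw [hAd]; positivity
  obtain ⟨g, hg⟩ : ∃ g, g = 2 * A ^ 2 + 1 := ⟨_, rfl⟩
  have hg0 : 0 < g := by rw [hg]; positivity
  obtain ⟨T, hT, hcard⟩ := card_SZ K (θ := 1) one_pos
  have hε4 : 0 < ε / 4 := by linarith
  obtain ⟨k, hk1, hk⟩ := order_exists 1 (Real.sqrt g) (ε / 4) le_rfl (Real.sqrt_nonneg _) hε4
  rw [Real.sq_sqrt hg0.le] at hk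
  obtain ⟨Q, hQ⟩ : ∃ Q : ℝ, Q = (2 * k + 1) * (T * A + 1) ^ (2 * k) * 2 ^ Fintype.card (J × ι) + 2 * Cb := ⟨_, rfl⟩
  obtain ⟨Z₁, hZ₁⟩ := sq_bound' (K := K) (A := A)
  obtain ⟨Z₂, hZ₂⟩ := small (K := K) hA0
  obtain ⟨Z₃, hZ₃⟩ := (Metric.tendsto_atTop.1 (cube_tendsto (K := K) hA0)) (ε / 4) hε4
  obtain ⟨Z₄, hZ₄⟩ := exists_nat_ge (Q / (ε / 8))
  have hlim : Tendsto (fun Z => Complex.exp (Complex.I * ((∑ v ∈ SZ K Z, mm 𝓣 W Z v : ℝ) : ℂ)) *
      Complex.exp ((-((∑ v ∈ SZ K Z, av Finset.univ (fun t => XC 𝓣 W Z v t ^ 2)) / 2) : ℝ) : ℂ)) atTop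
      (𝓝 (Complex.exp (Complex.I * (mI 𝓣 W : ℂ) - (vI 𝓣 W : ℂ) / 2))) := by
    have h1 := (Complex.continuous_ofReal.tendsto _).comp (mm_tendsto (𝓣 := 𝓣) hW)
    have h2 := (Complex.continuous_ofReal.tendsto _).comp (var_tendsto (𝓣 := 𝓣) hW)
    have h3 := (Complex.continuous_exp.tendsto _).comp ((h1.const_mul Complex.I).sub (h2.div_const 2))
    refine h3.congr fun Z => ?_
    simp only [Function.comp]
    rw [← Complex.exp_add]
    congr 1
    push_cast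
    ring
  obtain ⟨Z₅, hZ₅⟩ := (Metric.tendsto_atTop.1 hlim) (ε / 8) (by linarith)
  refine ⟨6 * k + 1, max (max (max 2 Z₁) (max Z₂ Z₃)) (max (Z₄ + 1) Z₅), fun Z hZ H hH => ?_⟩
  have g0 : 2 ≤ Z := ((le_max_left _ _).trans ((le_max_left _ _).trans (le_max_left _ _))).trans hZ
  have g1 : Z₁ ≤ Z := ((le_max_right _ _).trans ((le_max_left _ _).trans (le_max_left _ _))).trans hZ
  have g2 : Z₂ ≤ Z := ((le_max_left _ _).trans ((le_max_right _ _).trans (le_max_left _ _))).trans hZ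
  have g3 : Z₃ ≤ Z := ((le_max_right _ _).trans ((le_max_right _ _).trans (le_max_left _ _))).trans hZ
  have g4 : Z₄ + 1 ≤ Z := ((le_max_left _ _).trans (le_max_right _ _)).trans hZ
  have g5 : Z₅ ≤ Z := ((le_max_right _ _).trans (le_max_right _ _)).trans hZ
  obtain ⟨X, hX⟩ : ∃ X, X = XC 𝓣 W Z := ⟨_, rfl⟩
  have hXle : ∀ v t, |X v t| ≤ A * yy Z v / Real.sqrt (nv v) := fun v t => by rw [hX, hAd]; exact XC_le hB g0 v t
  have hXA : ∀ v t, |X v t| ≤ A := fun v t => by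
    refine (hXle v t).trans ?_
    obtain ⟨h0, h1⟩ := yy_facts g0 v
    obtain ⟨hQ1, hQQ⟩ := sqrt_facts v
    rw [div_le_iff₀ (by linarith)]
    exact mul_le_mul_of_nonneg_left (h1.trans hQ1) hA0
  have hX0 : ∀ v, av Finset.univ (X v) = 0 := fun v => by rw [hX]; exact XC_mean Z v
  have h1 := char_close ω X hCb hG hA0 hXA hT hcard k (by omega : 1 ≤ Z) H hH
    (even_model X (fun v => A * yy Z v / Real.sqrt (nv v)) (SZ K Z) (fun v _ => hXle v) hX0 hg0 (by rw [hg]; exact hZ₁ Z g1) k hk1)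
  rw [← hQ] at h1
  have h2 := char_model X (fun v => A * yy Z v / Real.sqrt (nv v)) (SZ K Z) (fun v _ => hXle v) hX0 (hZ₂ Z g2)
  have h3 := hZ₃ Z g3
  rw [Real.dist_eq, sub_zero] at h3
  have h3' := (le_abs_self _).trans h3.le
  have hZpos : (0 : ℝ) < Z := by
    have : 0 < Z := by omega
    exact_mod_cast this
  have h4 : Q / Z ≤ ε / 8 := by
    have h5 : Q / (ε / 8) ≤ Z := hZ₄.trans (by exact_mod_cast (Nat.le_succ Z₄).trans g4)
    rw [div_le_iff₀ (by linarith)] at h5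
    rw [div_le_iff₀ hZpos]
    linarith
  have h5 := hZ₅ Z g5
  rw [dist_eq_norm] at h5
  -- the sum
  obtain ⟨m, hm⟩ : ∃ m : ℝ, m = ∑ v ∈ SZ K Z, mm 𝓣 W Z v := ⟨_, rfl⟩
  have e1 : mean ω H G (fun t => Complex.exp (Complex.I * (SW 𝓣 W Z t : ℂ))) =
      Complex.exp (Complex.I * (m : ℂ)) * mean ω H G (fun t => Complex.exp (Complex.I * (SB X (SZ K Z) t : ℂ))) := by
    rw [← mean_mul]
    congr 1
    funext t
    rw [← Complex.exp_add, SW_eq, ← hm, ← hX]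
    congr 1
    push_cast
    ring
  rw [← hm, ← hX] at h5
  rw [e1]
  obtain ⟨a, ha⟩ : ∃ a, a = Complex.exp (Complex.I * (m : ℂ)) := ⟨_, rfl⟩
  have hna : ‖a‖ = 1 := by
    rw [ha, Complex.norm_exp]
    have : (Complex.I * (m : ℂ)).re = 0 := by
      rw [Complex.re_mul_ofReal]
      simp
    rw [this, Real.exp_zero]
  rw [← ha] at h5 ⊢
  obtain ⟨x, hx⟩ : ∃ x, x = mean ω H G (fun t => Complex.exp (Complex.I * (SB X (SZ K Z) t : ℂ))) := ⟨_, rfl⟩
  obtain ⟨y, hy⟩ : ∃ y, y = avg (Finset.univ : Finset (TS (SZ K Z) J)) (fun t => Complex.exp (Complex.I * (SM X (SZ K Z) t : ℂ))) := ⟨_, rfl⟩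
  obtain ⟨z, hz⟩ : ∃ z, z = Complex.exp ((-((∑ v ∈ SZ K Z, av Finset.univ (fun t => X v t ^ 2)) / 2) : ℝ) : ℂ) := ⟨_, rfl⟩
  rw [← hx, ← hy] at h1
  rw [← hy, ← hz] at h2
  rw [← hz] at h5
  rw [← hx]
  have e2 : a * x - Complex.exp (Complex.I * (mI 𝓣 W : ℂ) - (vI 𝓣 W : ℂ) / 2) =
      a * ((x - y) + (y - z)) + (a * z - Complex.exp (Complex.I * (mI 𝓣 W : ℂ) - (vI 𝓣 W : ℂ) / 2)) := by ring
  rw [e2]
  refine (norm_add_le _ _).trans ?_
  rw [norm_mul, hna, one_mul]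
  have h6 := norm_add_le (x - y) (y - z)
  have h7 : 2 * (2 * (g * Real.exp 1 / (2 * k)) ^ k) ≤ ε / 4 := by
    have : 2 * (2 * (g * Real.exp 1 / (2 * k)) ^ k) = 4 * 1 * (g * Real.exp 1 / (2 * (k : ℝ))) ^ k := by ring
    rw [this]
    exact hk
  linarith

theorem smul_mI (u : ℝ) : mI 𝓣 (fun i y => u * W i y) = u * mI 𝓣 W := by
  unfold mI
  rw [← intervalIntegral.integral_const_mul]
  congr 1
  funext y
  rw [Finset.mul_sum]
  refine Finset.sum_congr rfl fun i _ => ?_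
  ring

theorem smul_vI (u : ℝ) : vI 𝓣 (fun i y => u * W i y) = u ^ 2 * vI 𝓣 W := by
  unfold vI
  rw [← intervalIntegral.integral_const_mul]
  congr 1
  funext y
  have e : ∑ i, ∑ j, 𝓣.D i j * (u * W i y) * (u * W j y) = u ^ 2 * ∑ i, ∑ j, 𝓣.D i j * W i y * W j y := by
    rw [Finset.mul_sum]
    refine Finset.sum_congr rfl fun i _ => ?_
    rw [Finset.mul_sum]
    refine Finset.sum_congr rfl fun j _ => ?_
    ring
  rw [e]
  ring

theorem smul_SW (u : ℝ) (Z : ℕ) (t : J → 𝓞 K) : SW 𝓣 (fun i y => u * W i y) Z t = u * SW 𝓣 W Z t := by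
  unfold SW Y
  rw [Finset.mul_sum]
  refine Finset.sum_congr rfl fun v _ => ?_
  rw [mul_neg, Finset.mul_sum]
  congr 1
  refine Finset.sum_congr rfl fun i _ => ?_
  ring

theorem emp_set {α : Type} (S : Finset α) (X : α → ℝ) {E : Set ℝ} (hE : MeasurableSet E) [DecidablePred fun c => X c ∈ E] :
    (emp S X).real E = ((S.filter fun c => X c ∈ E).card : ℝ) / S.card := by
  have h : (0 : ℝ) ≤ (S.card : ℝ)⁻¹ := by positivity
  unfold Measure.real emp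
  rw [Measure.finsetSum_apply, ENNReal.toReal_sum (fun c _ => by
    rw [Measure.smul_apply, smul_eq_mul]
    exact ENNReal.mul_ne_top ENNReal.ofReal_ne_top (measure_ne_top _ _))]
  have e : ∀ c ∈ S, ((ENNReal.ofReal ((S.card : ℝ)⁻¹) • Measure.dirac (X c)) E).toReal =
      if X c ∈ E then (S.card : ℝ)⁻¹ else 0 := by
    intro c _
    rw [Measure.smul_apply, Measure.dirac_apply' _ hE, smul_eq_mul, ENNReal.toReal_mul,
      ENNReal.toReal_ofReal h]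
    by_cases hc : X c ∈ E
    · rw [if_pos hc, Set.indicator_of_mem hc]
      simp
    · rw [if_neg hc, Set.indicator_of_notMem hc]
      simp
  rw [Finset.sum_congr rfl e, ← Finset.sum_filter, Finset.sum_const, nsmul_eq_mul, div_eq_mul_inv]

/-- **The central limit theorem.** -/
theorem law_set (hW : ∀ i, Continuous (W i)) (hCb : 0 ≤ Cb) (hG : Thin ω G Cb) (hV : 0 < vI 𝓣 W) {E : Set ℝ} (hE : MeasurableSet E)
    (hfr0 : (ProbabilityTheory.gaussianReal 0 1) (frontier E) = 0) {ε : ℝ} (hε : 0 < ε) :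
    ∃ C Z₀ : ℕ, ∀ Z : ℕ, Z₀ ≤ Z → ∀ H : J → ℕ, (∀ j, Z ^ C ≤ H j) →
      |prop ω H G (fun t => (SW 𝓣 W Z t - mI 𝓣 W) / Real.sqrt (vI 𝓣 W) ∈ E) - (ProbabilityTheory.gaussianReal 0 1).real E| ≤ ε := by
  classical
  by_contra hcon
  push Not at hcon
  obtain ⟨Z₁, hZ₁⟩ := nonempty_thick ω hG
  choose Zn hZn Hn hHn hbad using fun n : ℕ => hcon (n + 1) (max (n + 1) Z₁)
  have hZnn1 : ∀ n, n + 1 ≤ Zn n := fun n => (le_max_left _ _).trans (hZn n)
  have hZnn : ∀ n, n ≤ Zn n := fun n => (Nat.le_succ n).trans (hZnn1 n)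
  have hZ1 : ∀ n, 1 ≤ Zn n := fun n => (Nat.succ_le_succ (Nat.zero_le n)).trans (hZnn1 n)
  have hZn1 : ∀ n, Z₁ ≤ Zn n := fun n => (le_max_right _ _).trans (hZn n)
  set σ : ℝ := Real.sqrt (vI 𝓣 W) with hσ
  have hσ0 : 0 < σ := Real.sqrt_pos.2 hV
  have hσ2 : σ ^ 2 = vI 𝓣 W := Real.sq_sqrt hV.le
  set S : ℕ → Finset (J × ι → ℤ) := fun n => (box ι (Hn n)).filter fun c => tuple ω c ∈ G with hS
  have hSne : ∀ n, (S n).Nonempty := fun n => hZ₁ (Zn n) (hZn1 n) (Hn n) (fun j => by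
    refine le_trans ?_ (hHn n j)
    calc Zn n = Zn n ^ 1 := (pow_one _).symm
      _ ≤ _ := Nat.pow_le_pow_right (hZ1 n) (by omega))
  set X : ∀ n : ℕ, (J × ι → ℤ) → ℝ := fun n c => (SW 𝓣 W (Zn n) (tuple ω c) - mI 𝓣 W) / σ with hX
  set μ : ℕ → ProbabilityMeasure ℝ := fun n => ⟨emp (S n) (X n), emp_prob _ (hSne n) _⟩ with hμ
  set μ₀ : ProbabilityMeasure ℝ := ⟨ProbabilityTheory.gaussianReal 0 1, inferInstance⟩ with hμ₀
  have hconv : Tendsto μ atTop (𝓝 μ₀) := by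
    refine ProbabilityMeasure.tendsto_of_tendsto_charFun fun u => ?_
    show Tendsto (fun n => charFun (emp (S n) (X n)) u) atTop (𝓝 (charFun (ProbabilityTheory.gaussianReal 0 1) u))
    rw [ProbabilityTheory.charFun_gaussianReal]
    have hfin : ∀ n, charFun (emp (S n) (X n)) u = Complex.exp (-(Complex.I * ((u / σ * mI 𝓣 W : ℝ) : ℂ))) * mean ω (Hn n) G (fun t =>
        Complex.exp (Complex.I * (SW 𝓣 (fun i y => (u / σ) * W i y) (Zn n) t : ℂ))) := by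
      intro n
      rw [emp_charFun, ← mean_mul]
      unfold mean
      have e1 : ∀ c, Complex.exp (u * (X n c : ℂ) * Complex.I) =
          Complex.exp (-(Complex.I * ((u / σ * mI 𝓣 W : ℝ) : ℂ))) *
            Complex.exp (Complex.I * (SW 𝓣 (fun i y => (u / σ) * W i y) (Zn n) (tuple ω c) : ℂ)) := by
        intro c
        rw [smul_SW, ← Complex.exp_add]
        congr 1
        simp only [hX]
        push_cast
        ring
      simp only [e1]
      rfl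
    have e5 : Complex.exp (u * ((0 : ℝ) : ℂ) * Complex.I - ((1 : NNReal) : ℝ) * (u : ℂ) ^ 2 / 2) =
        Complex.exp (-(Complex.I * ((u / σ * mI 𝓣 W : ℝ) : ℂ))) *
          Complex.exp (Complex.I * (mI 𝓣 (fun i y => (u / σ) * W i y) : ℂ) - (vI 𝓣 (fun i y => (u / σ) * W i y) : ℂ) / 2) := by
      rw [smul_mI, smul_vI, ← Complex.exp_add]
      congr 1
      have e6 : (u / σ) ^ 2 * vI 𝓣 W = u ^ 2 := by
        rw [div_pow, hσ2]
        field_simp
      rw [e6]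
      push_cast
      ring
    rw [e5, Metric.tendsto_atTop]
    intro δ hδ
    obtain ⟨C', Z', h'⟩ := box_char' ω 𝓣 (fun i y => (u / σ) * W i y) (fun i => (hW i).const_mul _) hCb hG (half_pos hδ)
    refine ⟨max C' Z', fun n hn => ?_⟩
    rw [dist_eq_norm, hfin, ← mul_sub, norm_mul]
    have h1 := h' (Zn n) (((le_max_right _ _).trans hn).trans (hZnn n)) (Hn n) (fun j => by
      refine le_trans ?_ (hHn n j)
      exact Nat.pow_le_pow_right (hZ1 n) (((le_max_left _ _).trans hn).trans (Nat.le_succ n)))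
    have h2 : ‖Complex.exp (-(Complex.I * ((u / σ * mI 𝓣 W : ℝ) : ℂ)))‖ = 1 := by
      rw [Complex.norm_exp]
      have : (-(Complex.I * ((u / σ * mI 𝓣 W : ℝ) : ℂ))).re = 0 := by
        rw [Complex.neg_re, Complex.re_mul_ofReal]
        simp
      rw [this, Real.exp_zero]
    rw [h2, one_mul]
    linarith
  have hport := ProbabilityMeasure.tendsto_measure_of_null_frontier_of_tendsto' hconv hfr0
  have hport2 : Tendsto (fun n => (emp (S n) (X n)).real E) atTop (𝓝 ((ProbabilityTheory.gaussianReal 0 1).real E)) := by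
    have := (ENNReal.tendsto_toReal (measure_ne_top (μ₀ : Measure ℝ) E)).comp hport
    exact this
  have hev := (Metric.tendsto_atTop.1 hport2 ε hε)
  obtain ⟨N, hN⟩ := hev
  have h1 := hN N le_rfl
  rw [Real.dist_eq, emp_set _ _ hE] at h1
  have h2 := hbad N
  have e : prop ω (Hn N) G (fun t => (SW 𝓣 W (Zn N) t - mI 𝓣 W) / σ ∈ E) =
      (((S N).filter fun c => X N c ∈ E).card : ℝ) / (S N).card := by
    unfold prop
    congr 2
    simp only [hS, Finset.filter_filter, hX]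
  rw [e] at h2
  linarith

theorem Phi_frontier (a : ℝ) : (ProbabilityTheory.gaussianReal 0 1) (frontier (Set.Iic a)) = 0 := by
  rw [frontier_Iic]
  have := ProbabilityTheory.nullSingletonClass_gaussianReal (μ := 0) (v := 1) one_ne_zero
  exact measure_singleton a

theorem clt' (hW : ∀ i, Continuous (W i)) (hCb : 0 ≤ Cb) (hG : Thin ω G Cb) (hV : 0 < vI 𝓣 W) (a : ℝ) {ε : ℝ} (hε : 0 < ε) :
    ∃ C Z₀ : ℕ, ∀ Z : ℕ, Z₀ ≤ Z → ∀ H : J → ℕ, (∀ j, Z ^ C ≤ H j) →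
      |prop ω H G (fun t => SW 𝓣 W Z t ≤ mI 𝓣 W + a * Real.sqrt (vI 𝓣 W)) - Phi a| ≤ ε := by
  obtain ⟨C, Z₀, h⟩ := law_set ω 𝓣 W hW hCb hG hV (measurableSet_Iic (a := a)) (Phi_frontier a) hε
  refine ⟨C, Z₀, fun Z hZ H hH => ?_⟩
  have h1 := h Z hZ H hH
  have hσ0 : 0 < Real.sqrt (vI 𝓣 W) := Real.sqrt_pos.2 hV
  have e : (fun t => (SW 𝓣 W Z t - mI 𝓣 W) / Real.sqrt (vI 𝓣 W) ∈ Set.Iic a) =
      fun t => SW 𝓣 W Z t ≤ mI 𝓣 W + a * Real.sqrt (vI 𝓣 W) := by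
    funext t
    rw [Set.mem_Iic, div_le_iff₀ hσ0, sub_le_iff_le_add, add_comm]
  rw [e] at h1
  exact h1

theorem gauss_Ioo {b : ℝ} (hb : 0 ≤ b) : (ProbabilityTheory.gaussianReal 0 1).real (Set.Ioo (-b) b) = Phi b - Phi (-b) ∧
    (ProbabilityTheory.gaussianReal 0 1) (frontier (Set.Ioo (-b) b)) = 0 := by
  have hn := ProbabilityTheory.nullSingletonClass_gaussianReal (μ := 0) (v := 1) one_ne_zero
  constructor
  · have h1 : Set.Ioc (-b) b = Set.Iic b \ Set.Iic (-b) := by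
      ext x
      simp only [Set.mem_Ioc, Set.mem_sdiff, Set.mem_Iic, not_le]
      exact and_comm
    have h2 : (ProbabilityTheory.gaussianReal 0 1).real (Set.Ioc (-b) b) = Phi b - Phi (-b) := by
      rw [h1, measureReal_sdiff (Set.Iic_subset_Iic.2 (by linarith)) measurableSet_Iic]
      rfl
    rw [← h2]
    exact measureReal_congr Ioo_ae_eq_Ioc
  · refine measure_mono_null (t := {-b, b}) ?_ ?_
    · rcases eq_or_lt_of_le hb with h | h
      · rw [← h]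
        simp
      · rw [frontier_Ioo (by linarith)]
    · exact (Set.toFinite _).measure_zero _

/-- **The proportion in a symmetric interval.** -/
theorem law_near (hW : ∀ i, Continuous (W i)) (hCb : 0 ≤ Cb) (hG : Thin ω G Cb) (hV : 0 < vI 𝓣 W) {b : ℝ} (hb : 0 ≤ b) {ε : ℝ} (hε : 0 < ε) :
    ∃ C Z₀ : ℕ, ∀ Z : ℕ, Z₀ ≤ Z → ∀ H : J → ℕ, (∀ j, Z ^ C ≤ H j) →
      |prop ω H G (fun t => |SW 𝓣 W Z t - mI 𝓣 W| < b) - (Phi (b / Real.sqrt (vI 𝓣 W)) - Phi (-(b / Real.sqrt (vI 𝓣 W))))| ≤ ε := by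
  have hσ0 : 0 < Real.sqrt (vI 𝓣 W) := Real.sqrt_pos.2 hV
  obtain ⟨h1, h2⟩ := gauss_Ioo (b := b / Real.sqrt (vI 𝓣 W)) (by positivity)
  obtain ⟨C, Z₀, h⟩ := law_set ω 𝓣 W hW hCb hG hV (measurableSet_Ioo (a := -(b / Real.sqrt (vI 𝓣 W))) (b := b / Real.sqrt (vI 𝓣 W))) h2 hε
  refine ⟨C, Z₀, fun Z hZ H hH => ?_⟩
  have h3 := h Z hZ H hH
  have e : (fun t => (SW 𝓣 W Z t - mI 𝓣 W) / Real.sqrt (vI 𝓣 W) ∈ Set.Ioo (-(b / Real.sqrt (vI 𝓣 W))) (b / Real.sqrt (vI 𝓣 W))) =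
      fun t => |SW 𝓣 W Z t - mI 𝓣 W| < b := by
    funext t
    rw [Set.mem_Ioo, ← neg_div, div_lt_div_iff_of_pos_right hσ0, div_lt_div_iff_of_pos_right hσ0, abs_lt]
  rw [e, h1] at h3
  exact h3

/-- The normal law is concentrated on large intervals. -/
theorem Phi_large {ε : ℝ} (hε : 0 < ε) : ∃ R : ℝ, 0 < R ∧ ∀ b : ℝ, R ≤ b → 1 - ε ≤ Phi b - Phi (-b) := by
  have h0 : ∀ x, ProbabilityTheory.cdf (ProbabilityTheory.gaussianReal 0 1) x = Phi x := fun x => ProbabilityTheory.cdf_eq_real _ x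
  have h1 : Tendsto (fun x : ℝ => Phi x) atTop (𝓝 1) := by
    have := ProbabilityTheory.tendsto_cdf_atTop (ProbabilityTheory.gaussianReal 0 1)
    exact this.congr h0
  have h3 : Tendsto (fun x : ℝ => Phi x) atBot (𝓝 0) := by
    have := ProbabilityTheory.tendsto_cdf_atBot (ProbabilityTheory.gaussianReal 0 1)
    exact this.congr h0
  have h4 := h1.sub (h3.comp tendsto_neg_atTop_atBot)
  rw [sub_zero] at h4
  have h5 := h4.eventually (lt_mem_nhds (show 1 - ε < 1 by linarith))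
  obtain ⟨R, hR⟩ := Filter.eventually_atTop.1 h5
  refine ⟨max R 1, by positivity, fun b hb => (hR b ((le_max_left _ _).trans hb)).le⟩

end

end Run7.h876.MN
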