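import Mathlib

/-!
# Riemann sums and the Stolz-Cesaro lemma
-/

set_option autoImplicit false
set_option linter.unusedSectionVars false

namespace Run7.h876.MN

open Finset Filter Topology

/-- Abel summation: the logarithmic mean. -/
theorem log_mean (θ M : ℕ → ℝ) (hM : ∀ n, M (n + 1) - M n = (θ (n + 1) - θ n) / (n + 1))
    (hθ : Tendsto (fun n : ℕ => θ n / n) atTop (𝓝 1)) : Tendsto (fun n : ℕ => M n / Real.log n) atTop (𝓝 1) := by
  -- `R n = M n - θ n / n`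
  obtain ⟨R, hR⟩ : ∃ R : ℕ → ℝ, R = fun n => M (n + 1) - θ (n + 1) / ((n : ℝ) + 1) := ⟨_, rfl⟩
  have hR1 : ∀ n, R (n + 1) - R n = (θ (n + 1) / ((n : ℝ) + 1)) * (1 / ((n : ℝ) + 2)) := by
    intro n
    have h1 := hM (n + 1)
    rw [hR]
    simp only
    push_cast at h1 ⊢
    have e1 : M (n + 1 + 1) = M (n + 1) + (θ (n + 1 + 1) - θ (n + 1)) / ((n : ℝ) + 1 + 1) := by linarith
    rw [e1]
    have h2 : (n : ℝ) + 1 ≠ 0 := by positivity
    have h3 : (n : ℝ) + 1 + 1 ≠ 0 := by positivity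
    have h4 : (n : ℝ) + 2 ≠ 0 := by positivity
    field_simp
    ring
  obtain ⟨g, hg⟩ : ∃ g : ℕ → ℝ, g = fun n : ℕ => Real.log ((n : ℝ) + 2) - Real.log ((n : ℝ) + 1) := ⟨_, rfl⟩
  have hg0 : ∀ n : ℕ, 0 ≤ g n := by
    intro n
    rw [hg]
    simp only
    have := Real.log_le_log (x := (n : ℝ) + 1) (y := (n : ℝ) + 2) (by positivity) (by linarith)
    linarith
  have hg1 : ∀ n : ℕ, 1 / ((n : ℝ) + 2) ≤ g n ∧ g n ≤ 1 / ((n : ℝ) + 1) := by
    intro n
    have h1 : (0 : ℝ) < (n : ℝ) + 1 := by positivity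
    have h2 : (0 : ℝ) < (n : ℝ) + 2 := by positivity
    have e : g n = Real.log (((n : ℝ) + 2) / ((n : ℝ) + 1)) := by
      rw [hg, Real.log_div h2.ne' h1.ne']
    constructor
    · have h3 := Real.log_le_sub_one_of_pos (x := ((n : ℝ) + 1) / ((n : ℝ) + 2)) (by positivity)
      have e2 : Real.log (((n : ℝ) + 1) / ((n : ℝ) + 2)) = - g n := by
        rw [e, ← Real.log_inv, inv_div]
      rw [e2] at h3
      have e3 : ((n : ℝ) + 1) / ((n : ℝ) + 2) - 1 = -(1 / ((n : ℝ) + 2)) := by field_simp; ring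
      rw [e3] at h3
      linarith
    · have h3 := Real.log_le_sub_one_of_pos (x := ((n : ℝ) + 2) / ((n : ℝ) + 1)) (by positivity)
      rw [← e] at h3
      have e3 : ((n : ℝ) + 2) / ((n : ℝ) + 1) - 1 = 1 / ((n : ℝ) + 1) := by field_simp; ring
      rw [e3] at h3
      exact h3
  have hgsum : ∀ n : ℕ, ∑ m ∈ range n, g m = Real.log ((n : ℝ) + 1) := by
    intro n
    induction n with
    | zero => simp
    | succ n ih =>
      rw [Finset.sum_range_succ, ih, hg]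
      push_cast
      ring_nf
  have hRsum : ∀ n, ∑ m ∈ range n, (R (m + 1) - R m) = R n - R 0 := fun n => Finset.sum_range_sub R n
  have hlog : Tendsto (fun n : ℕ => Real.log ((n : ℝ) + 1)) atTop atTop := by
    refine Real.tendsto_log_atTop.comp ?_
    exact tendsto_atTop_add_const_right _ _ tendsto_natCast_atTop_atTop
  have hgtop : Tendsto (fun n : ℕ => ∑ m ∈ range n, g m) atTop atTop := by
    simp only [hgsum]
    exact hlog
  -- the ratio
  have hθ1 : Tendsto (fun n : ℕ => θ (n + 1) / ((n : ℝ) + 1)) atTop (𝓝 1) := by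
    have := (tendsto_add_atTop_iff_nat 1).2 hθ
    refine this.congr fun n => ?_
    push_cast
    rfl
  have hlit : (fun n => (R (n + 1) - R n) - g n) =o[atTop] g := by
    rw [Asymptotics.isLittleO_iff]
    intro c hc
    have h1 := (Metric.tendsto_atTop.1 hθ1) (min 1 (c / 2)) (by positivity)
    obtain ⟨N, hN⟩ := h1
    obtain ⟨N2, hN2⟩ := exists_nat_ge (2 / c)
    refine Filter.eventually_atTop.2 ⟨max N (N2 + 1), fun n hn => ?_⟩
    have h2 := hN n ((le_max_left _ _).trans hn)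
    rw [Real.dist_eq] at h2
    have h3 : (2 : ℝ) / c ≤ n := hN2.trans (by exact_mod_cast (Nat.le_succ N2).trans ((le_max_right _ _).trans hn))
    rw [div_le_iff₀ hc] at h3
    obtain ⟨hga, hgb⟩ := hg1 n
    have hn0 : (0 : ℝ) < (n : ℝ) + 1 := by positivity
    have hn2 : (0 : ℝ) < (n : ℝ) + 2 := by positivity
    rw [Real.norm_eq_abs, Real.norm_eq_abs, abs_of_nonneg (hg0 n), hR1]
    obtain ⟨q, hq⟩ : ∃ q, q = θ (n + 1) / ((n : ℝ) + 1) := ⟨_, rfl⟩
    rw [← hq] at h2 ⊢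
    have h4 : q * (1 / ((n : ℝ) + 2)) - g n = (q - 1) * (1 / ((n : ℝ) + 2)) + (1 / ((n : ℝ) + 2) - g n) := by ring
    rw [h4]
    refine (abs_add_le _ _).trans ?_
    rw [abs_mul, abs_of_pos (by positivity : (0 : ℝ) < 1 / ((n : ℝ) + 2))]
    have h5 : |q - 1| ≤ c / 2 := h2.le.trans (min_le_right _ _)
    have h6 : |1 / ((n : ℝ) + 2) - g n| ≤ c / 2 * g n := by
      rw [abs_sub_comm, abs_of_nonneg (by linarith)]
      have h7 : g n - 1 / ((n : ℝ) + 2) ≤ 1 / ((n : ℝ) + 1) - 1 / ((n : ℝ) + 2) := by linarith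
      refine h7.trans ?_
      have h8 : 1 / ((n : ℝ) + 1) - 1 / ((n : ℝ) + 2) = (1 / ((n : ℝ) + 1)) * (1 / ((n : ℝ) + 2)) := by
        field_simp
        ring
      rw [h8]
      refine mul_le_mul ?_ hga (by positivity) (by positivity)
      rw [div_le_iff₀ hn0]
      nlinarith
    have h7 : |q - 1| * (1 / ((n : ℝ) + 2)) ≤ c / 2 * g n := mul_le_mul h5 hga (by positivity) (by positivity)
    linarith
  have hs := Asymptotics.IsLittleO.sum_range hlit hg0 hgtop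
  have hs2 : Tendsto (fun n : ℕ => (∑ m ∈ range n, ((R (m + 1) - R m) - g m)) / ∑ m ∈ range n, g m) atTop (𝓝 0) :=
    hs.tendsto_div_nhds_zero
  have hs3 : Tendsto (fun n : ℕ => R n / Real.log ((n : ℝ) + 1)) atTop (𝓝 1) := by
    have h1 : Tendsto (fun n : ℕ => (∑ m ∈ range n, ((R (m + 1) - R m) - g m)) / (∑ m ∈ range n, g m) + 1 +
        R 0 / Real.log ((n : ℝ) + 1)) atTop (𝓝 (0 + 1 + 0)) :=
      (hs2.add tendsto_const_nhds).add (Tendsto.const_div_atTop hlog _)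
    rw [zero_add, add_zero] at h1
    refine h1.congr' ?_
    refine Filter.eventually_atTop.2 ⟨1, fun n hn => ?_⟩
    show (∑ m ∈ range n, ((R (m + 1) - R m) - g m)) / (∑ m ∈ range n, g m) + 1 + R 0 / Real.log ((n : ℝ) + 1) =
      R n / Real.log ((n : ℝ) + 1)
    rw [Finset.sum_sub_distrib, hRsum, hgsum]
    have h2 : 0 < Real.log ((n : ℝ) + 1) := Real.log_pos (by
      have : (1 : ℝ) ≤ n := by exact_mod_cast hn
      linarith)
    field_simp
    ring
  have hM1 : Tendsto (fun n : ℕ => M (n + 1) / Real.log ((n : ℝ) + 1)) atTop (𝓝 1) := by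
    have h1 := hs3.add (hθ1.div_atTop hlog)
    rw [add_zero] at h1
    refine h1.congr fun n => ?_
    rw [hR, ← add_div]
    simp only
    congr 1
    ring
  rw [← tendsto_add_atTop_iff_nat 1]
  refine hM1.congr fun n => ?_
  push_cast
  rfl

section
variable {α : Type*} (S : Finset α) (μ x : α → ℝ)

open Classical in
/-- the distribution function -/
noncomputable def FF (y : ℝ) : ℝ := ∑ v ∈ S.filter (fun v => x v ≤ y), μ v

theorem step_le (hμ : ∀ v ∈ S, 0 ≤ μ v) (hx : ∀ v ∈ S, 0 < x v ∧ x v ≤ 1) (g : ℝ → ℝ) {n : ℕ} (hn : 0 < n) {ε : ℝ}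
    (hg : ∀ a ∈ Set.Icc (0 : ℝ) 1, ∀ b ∈ Set.Icc (0 : ℝ) 1, |a - b| ≤ 1 / n → |g a - g b| ≤ ε) :
    |∑ v ∈ S, μ v * g (x v) - ∑ i ∈ range n, g (((i : ℝ) + 1) / n) * (FF S μ x (((i : ℝ) + 1) / n) - FF S μ x ((i : ℝ) / n))| ≤
      ε * ∑ v ∈ S, μ v := by
  classical
  have hn0 : (0 : ℝ) < n := by exact_mod_cast hn
  obtain ⟨φ, hφ⟩ : ∃ φ : α → ℕ, φ = fun v => ⌈n * x v⌉₊ - 1 := ⟨_, rfl⟩
  have hφ1 : ∀ v ∈ S, φ v < n ∧ (φ v : ℝ) < n * x v ∧ n * x v ≤ φ v + 1 := by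
    intro v hv
    obtain ⟨h1, h2⟩ := hx v hv
    have h3 : 0 < ⌈n * x v⌉₊ := Nat.ceil_pos.2 (by positivity)
    have h4 : ⌈n * x v⌉₊ ≤ n := Nat.ceil_le.2 (by nlinarith)
    have h5 : ((⌈n * x v⌉₊ - 1 : ℕ) : ℝ) = (⌈n * x v⌉₊ : ℝ) - 1 := by
      rw [Nat.cast_sub h3, Nat.cast_one]
    rw [hφ]
    simp only
    refine ⟨by omega, ?_, ?_⟩
    · rw [h5]
      have := Nat.ceil_lt_add_one (a := n * x v) (by positivity)
      linarith
    · rw [h5]
      have := Nat.le_ceil (n * x v)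
      linarith
  have hmaps : ∀ v ∈ S, φ v ∈ range n := fun v hv => Finset.mem_range.2 (hφ1 v hv).1
  have hF : ∀ i ∈ range n, FF S μ x (((i : ℝ) + 1) / n) - FF S μ x ((i : ℝ) / n) = ∑ v ∈ S.filter (fun v => φ v = i), μ v := by
    intro i _
    unfold FF
    have hsub : S.filter (fun v => x v ≤ (i : ℝ) / n) ⊆ S.filter (fun v => x v ≤ ((i : ℝ) + 1) / n) := by
      intro v hv
      rw [Finset.mem_filter] at hv ⊢
      refine ⟨hv.1, hv.2.trans ?_⟩
      exact div_le_div_of_nonneg_right (by linarith) hn0.le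
    rw [← Finset.sum_sdiff hsub, add_sub_cancel_right]
    refine Finset.sum_congr ?_ fun _ _ => rfl
    ext v
    rw [Finset.mem_sdiff, Finset.mem_filter, Finset.mem_filter, Finset.mem_filter]
    constructor
    · rintro ⟨⟨h1, h2⟩, h3⟩
      refine ⟨h1, ?_⟩
      obtain ⟨h4, h5, h6⟩ := hφ1 v h1
      have h7 : (i : ℝ) / n < x v := by
        by_contra hcon
        push Not at hcon
        exact h3 ⟨h1, hcon⟩
      rw [div_lt_iff₀ hn0] at h7
      rw [le_div_iff₀ hn0] at h2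
      have h8 : (φ v : ℝ) < i + 1 := by linarith
      have h9 : (i : ℝ) < φ v + 1 := by linarith
      have h10 : φ v < i + 1 := by exact_mod_cast h8
      have h11 : i < φ v + 1 := by exact_mod_cast h9
      omega
    · rintro ⟨h1, h2⟩
      obtain ⟨h4, h5, h6⟩ := hφ1 v h1
      rw [h2] at h5 h6
      refine ⟨⟨h1, ?_⟩, fun h => ?_⟩
      · rw [le_div_iff₀ hn0]; linarith
      · have := h.2
        rw [le_div_iff₀ hn0] at this
        linarith
  have e1 : ∑ i ∈ range n, g (((i : ℝ) + 1) / n) * (FF S μ x (((i : ℝ) + 1) / n) - FF S μ x ((i : ℝ) / n)) =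
      ∑ i ∈ range n, g (((i : ℝ) + 1) / n) * ∑ v ∈ S.filter (fun v => φ v = i), μ v :=
    Finset.sum_congr rfl fun i hi => by rw [hF i hi]
  have e2 : ∑ v ∈ S, μ v * g (x v) = ∑ i ∈ range n, ∑ v ∈ S.filter (fun v => φ v = i), μ v * g (x v) :=
    (Finset.sum_fiberwise_of_maps_to hmaps _).symm
  have e3 : ∑ v ∈ S, μ v = ∑ i ∈ range n, ∑ v ∈ S.filter (fun v => φ v = i), μ v :=
    (Finset.sum_fiberwise_of_maps_to hmaps _).symm
  rw [e1, e2, e3, ← Finset.sum_sub_distrib, Finset.mul_sum]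
  refine (Finset.abs_sum_le_sum_abs _ _).trans (Finset.sum_le_sum fun i hi => ?_)
  rw [Finset.mul_sum, ← Finset.sum_sub_distrib, Finset.mul_sum]
  refine (Finset.abs_sum_le_sum_abs _ _).trans (Finset.sum_le_sum fun v hv => ?_)
  rw [Finset.mem_filter] at hv
  obtain ⟨h4, h5, h6⟩ := hφ1 v hv.1
  obtain ⟨h1, h2⟩ := hx v hv.1
  rw [hv.2] at h5 h6 h4
  have e : μ v * g (x v) - g (((i : ℝ) + 1) / n) * μ v = (g (x v) - g (((i : ℝ) + 1) / n)) * μ v := by ring
  rw [e, abs_mul, abs_of_nonneg (hμ v hv.1)]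
  refine mul_le_mul_of_nonneg_right ?_ (hμ v hv.1)
  refine hg _ ⟨h1.le, h2⟩ _ ⟨by positivity, ?_⟩ ?_
  · rw [div_le_one hn0]
    exact_mod_cast h4
  · rw [abs_sub_comm, abs_of_nonneg]
    · rw [div_sub' hn0.ne', div_le_div_iff_of_pos_right hn0]
      linarith
    · rw [sub_nonneg, le_div_iff₀ hn0]
      linarith

end

/-- The Riemann sums. -/
theorem riemann (g : ℝ → ℝ) (hgc : Continuous g) {n : ℕ} (hn : 0 < n) {ε : ℝ}
    (hg : ∀ a ∈ Set.Icc (0 : ℝ) 1, ∀ b ∈ Set.Icc (0 : ℝ) 1, |a - b| ≤ 1 / n → |g a - g b| ≤ ε) :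
    |(∫ y in (0 : ℝ)..1, g y) - ∑ i ∈ range n, g (((i : ℝ) + 1) / n) * (1 / n)| ≤ ε := by
  have hn0 : (0 : ℝ) < n := by exact_mod_cast hn
  have hint : ∀ a b : ℝ, IntervalIntegrable g MeasureTheory.volume a b := fun a b => hgc.intervalIntegrable a b
  have h1 := intervalIntegral.sum_integral_adjacent_intervals (f := g) (μ := MeasureTheory.volume) (a := fun i : ℕ => (i : ℝ) / n)
    (n := n) (fun i _ => hint _ _)
  simp only [Nat.cast_zero, zero_div, div_self hn0.ne', Nat.cast_add, Nat.cast_one] at h1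
  rw [← h1, ← Finset.sum_sub_distrib]
  refine (Finset.abs_sum_le_sum_abs _ _).trans ?_
  have h2 : ∀ i ∈ range n, |(∫ y in (i : ℝ) / n..((i : ℝ) + 1) / n, g y) - g (((i : ℝ) + 1) / n) * (1 / n)| ≤ ε * (1 / n) := by
    intro i hi
    have hi1 : (i : ℝ) + 1 ≤ n := by exact_mod_cast Finset.mem_range.1 hi
    have hlen : ((i : ℝ) + 1) / n - (i : ℝ) / n = 1 / n := by ring
    have hle : (i : ℝ) / n ≤ ((i : ℝ) + 1) / n := div_le_div_of_nonneg_right (by linarith) hn0.le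
    have e : g (((i : ℝ) + 1) / n) * (1 / n) = ∫ y in (i : ℝ) / n..((i : ℝ) + 1) / n, g (((i : ℝ) + 1) / n) := by
      rw [intervalIntegral.integral_const, hlen, smul_eq_mul, mul_comm]
    rw [e, ← intervalIntegral.integral_sub (hint _ _) (intervalIntegrable_const)]
    have h3 := intervalIntegral.norm_integral_le_of_norm_le_const (a := (i : ℝ) / n) (b := ((i : ℝ) + 1) / n) (C := ε)
      (f := fun y => g y - g (((i : ℝ) + 1) / n)) (fun y hy => by
        rw [Set.uIoc_of_le hle] at hy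
        rw [Real.norm_eq_abs]
        have hy0 : 0 ≤ (i : ℝ) / n := by positivity
        have hy1 : ((i : ℝ) + 1) / n ≤ 1 := by rw [div_le_one hn0]; exact hi1
        refine hg y ⟨by linarith [hy.1], hy.2.trans hy1⟩ _ ⟨by positivity, hy1⟩ ?_
        rw [abs_sub_comm, abs_of_nonneg (by linarith [hy.2])]
        linarith [hy.1])
    rw [hlen, abs_of_pos (by positivity : (0 : ℝ) < 1 / n), Real.norm_eq_abs] at h3
    exact h3
  refine (Finset.sum_le_sum h2).trans (le_of_eq ?_)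
  rw [Finset.sum_const, Finset.card_range, nsmul_eq_mul]
  field_simp

/-- **Weak convergence to the uniform distribution from the distribution functions.** -/
theorem tendsto_of_FF {α : Type*} (S : ℕ → Finset α) (μ x : ℕ → α → ℝ) {Z₀ : ℕ} (hμ : ∀ Z, Z₀ ≤ Z → ∀ v ∈ S Z, 0 ≤ μ Z v)
    (hx : ∀ Z, Z₀ ≤ Z → ∀ v ∈ S Z, 0 < x Z v ∧ x Z v ≤ 1)
    (hF : ∀ y ∈ Set.Icc (0 : ℝ) 1, Tendsto (fun Z => FF (S Z) (μ Z) (x Z) y) atTop (𝓝 y)) (g : ℝ → ℝ) (hgc : Continuous g) :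
    Tendsto (fun Z => ∑ v ∈ S Z, μ Z v * g (x Z v)) atTop (𝓝 (∫ y in (0 : ℝ)..1, g y)) := by
  rw [Metric.tendsto_atTop]
  intro ε hε
  have huc := isCompact_Icc.uniformContinuousOn_of_continuous (hgc.continuousOn (s := Set.Icc (0 : ℝ) 1))
  rw [Metric.uniformContinuousOn_iff] at huc
  obtain ⟨δ, hδ, hδ'⟩ := huc (ε / 8) (by linarith)
  obtain ⟨n, hn⟩ := exists_nat_gt (1 / δ)
  have hn0' : (0 : ℝ) < n := lt_trans (by positivity) hn
  have hn0 : 0 < n := by exact_mod_cast hn0'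
  have hg : ∀ a ∈ Set.Icc (0 : ℝ) 1, ∀ b ∈ Set.Icc (0 : ℝ) 1, |a - b| ≤ 1 / n → |g a - g b| ≤ ε / 8 := by
    intro a ha b hb hab
    have h1 : 1 / (n : ℝ) < δ := by
      rw [div_lt_iff₀ hn0']
      rw [div_lt_iff₀ hδ] at hn
      linarith
    have := hδ' a ha b hb (by rw [Real.dist_eq]; linarith)
    rw [Real.dist_eq] at this
    exact this.le
  have h1 : Tendsto (fun Z => ∑ i ∈ range n, g (((i : ℝ) + 1) / n) *
      (FF (S Z) (μ Z) (x Z) (((i : ℝ) + 1) / n) - FF (S Z) (μ Z) (x Z) ((i : ℝ) / n))) atTop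
      (𝓝 (∑ i ∈ range n, g (((i : ℝ) + 1) / n) * (((i : ℝ) + 1) / n - (i : ℝ) / n))) := by
    refine tendsto_finsetSum _ fun i hi => ?_
    have hi1 : (i : ℝ) + 1 ≤ n := by exact_mod_cast Finset.mem_range.1 hi
    refine Tendsto.const_mul _ ((hF _ ⟨by positivity, ?_⟩).sub (hF _ ⟨by positivity, ?_⟩))
    · rw [div_le_one hn0']; exact hi1
    · rw [div_le_one hn0']; linarith
  have h2 : Tendsto (fun Z => ∑ v ∈ S Z, μ Z v) atTop (𝓝 1) := by
    refine (hF 1 ⟨zero_le_one, le_rfl⟩).congr' ?_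
    refine Filter.eventually_atTop.2 ⟨Z₀, fun Z hZ => ?_⟩
    show FF (S Z) (μ Z) (x Z) 1 = ∑ v ∈ S Z, μ Z v
    unfold FF
    refine Finset.sum_congr (Finset.filter_true_of_mem fun v hv => (hx Z hZ v hv).2) fun _ _ => rfl
  obtain ⟨N1, hN1⟩ := (Metric.tendsto_atTop.1 h1) (ε / 4) (by linarith)
  obtain ⟨N2, hN2⟩ := (Metric.tendsto_atTop.1 h2) 1 one_pos
  refine ⟨max Z₀ (max N1 N2), fun Z hZ => ?_⟩
  have hZ0 : Z₀ ≤ Z := (le_max_left _ _).trans hZ
  have g1 := hN1 Z (((le_max_left _ _).trans (le_max_right _ _)).trans hZ)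
  have g2 := hN2 Z (((le_max_right _ _).trans (le_max_right _ _)).trans hZ)
  have g3 := step_le (S Z) (μ Z) (x Z) (hμ Z hZ0) (hx Z hZ0) g hn0 hg
  have g4 := riemann g hgc hn0 hg
  have e : ∑ i ∈ range n, g (((i : ℝ) + 1) / n) * (((i : ℝ) + 1) / n - (i : ℝ) / n) = ∑ i ∈ range n, g (((i : ℝ) + 1) / n) * (1 / n) := by
    refine Finset.sum_congr rfl fun i _ => ?_
    congr 1
    ring
  rw [e] at g1
  rw [Real.dist_eq] at g1 g2 ⊢
  obtain ⟨a1, a2⟩ := abs_lt.1 g1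
  obtain ⟨a3, a4⟩ := abs_lt.1 g2
  obtain ⟨a7, a8⟩ := abs_le.1 g4
  have h5 : ε / 8 * ∑ v ∈ S Z, μ Z v ≤ ε / 4 := by nlinarith
  obtain ⟨a5, a6⟩ := abs_le.1 (g3.trans h5)
  rw [abs_lt]
  constructor <;> linarith

end Run7.h876.MN
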