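import Pool.Agent.H484R2.Pit
import Pool.Agent.Run7.h9.TW.Mert
import Pool.Agent.Run7.h876.PW.Gen
import Pool.Agent.Run7.h876.MN.Step

/-!
# The places of a number field on the logarithmic scale
-/

set_option autoImplicit false
set_option linter.unusedSectionVars false

namespace Run7.h876.MN

open NumberField IsDedekindDomain Finset Filter Topology
open Run7.h876.MM (nv kv two_le_nv nv_pos SZ mem_SZ)
open Run7.h9.BS (cv cv_pos)
open Run7.h9.TW (PZ card_fiber)

section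
variable {K : Type} [Field K] [NumberField K]

/-- the place of `v` on the logarithmic scale -/
noncomputable def xx (Z : ℕ) (v : HeightOneSpectrum (𝓞 K)) : ℝ := Real.log (nv v) / Real.log Z

/-- the mass of `v` -/
noncomputable def mu (Z : ℕ) (v : HeightOneSpectrum (𝓞 K)) : ℝ := xx Z v / nv v

theorem log_nv_pos (v : HeightOneSpectrum (𝓞 K)) : 0 < Real.log (nv v) :=
  Real.log_pos (by exact_mod_cast (by have := two_le_nv v; omega : 1 < nv v))

theorem log_Z_pos {Z : ℕ} (hZ : 2 ≤ Z) : 0 < Real.log Z :=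
  Real.log_pos (by exact_mod_cast (by omega : 1 < Z))

theorem xx_facts {Z : ℕ} (hZ : 2 ≤ Z) {v : HeightOneSpectrum (𝓞 K)} (hv : v ∈ SZ K Z) : 0 < xx Z v ∧ xx Z v ≤ 1 := by
  have h1 := log_nv_pos v
  have h2 := log_Z_pos hZ
  unfold xx
  refine ⟨by positivity, ?_⟩
  rw [div_le_one h2]
  exact Real.log_le_log (nv_pos v) (by exact_mod_cast mem_SZ.1 hv)

theorem mu_nonneg {Z : ℕ} (hZ : 2 ≤ Z) {v : HeightOneSpectrum (𝓞 K)} (hv : v ∈ SZ K Z) : 0 ≤ mu Z v :=
  div_nonneg (xx_facts hZ hv).1.le (nv_pos v).le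

variable (K)

theorem theta_PZ (T : ℕ) : ∑ v ∈ PZ K T, Real.log (nv v) = H332.PIT.TT K T := by
  classical
  unfold H332.PIT.TT
  have hmaps : ∀ v ∈ PZ K T, nv v ∈ (Finset.range (T + 1)).filter Nat.Prime := by
    intro v hv
    rw [PZ, Finset.mem_filter, mem_SZ] at hv
    rw [Finset.mem_filter, Finset.mem_range]
    exact ⟨by omega, hv.2⟩
  rw [← Finset.sum_fiberwise_of_maps_to hmaps]
  refine Finset.sum_congr rfl fun p hp => ?_
  rw [Finset.mem_filter, Finset.mem_range] at hp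
  rw [← card_fiber hp.2 (by omega : p ≤ T), Finset.sum_congr rfl (fun v hv => by rw [(Finset.mem_filter.1 hv).2]), Finset.sum_const,
    nsmul_eq_mul]

theorem mert_PZ : Tendsto (fun T : ℕ => (∑ v ∈ PZ K T, Real.log (nv v) / nv v) / Real.log T) atTop (𝓝 1) := by
  classical
  have h0 : Tendsto (fun T : ℕ => (∑ v ∈ PZ K T, Real.log (nv v)) / T) atTop (𝓝 1) := by
    simp only [theta_PZ]
    exact H332.PIT.TT_tendsto (Pool.Agent.H484R2.continuation K)
  refine log_mean (fun T => ∑ v ∈ PZ K T, Real.log (nv v)) (fun T => ∑ v ∈ PZ K T, Real.log (nv v) / nv v) (fun n => ?_) h0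
  have hmem : ∀ (n : ℕ) (v : HeightOneSpectrum (𝓞 K)), v ∈ PZ K n ↔ nv v ≤ n ∧ (nv v).Prime := fun n v => by
    rw [PZ, Finset.mem_filter, mem_SZ]
  have hsub : PZ K n ⊆ PZ K (n + 1) := fun v hv => (hmem _ _).2 ⟨((hmem _ _).1 hv).1.trans (Nat.le_succ n), ((hmem _ _).1 hv).2⟩
  have e1 : ∑ v ∈ PZ K (n + 1), Real.log (nv v) / nv v - ∑ v ∈ PZ K n, Real.log (nv v) / nv v =
      ∑ v ∈ PZ K (n + 1) \ PZ K n, Real.log (nv v) / nv v := by
    rw [← Finset.sum_sdiff hsub, add_sub_cancel_right]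
  have e2 : ∑ v ∈ PZ K (n + 1), Real.log (nv v) - ∑ v ∈ PZ K n, Real.log (nv v) =
      ∑ v ∈ PZ K (n + 1) \ PZ K n, Real.log (nv v) := by
    rw [← Finset.sum_sdiff hsub, add_sub_cancel_right]
  rw [e1, e2, Finset.sum_div]
  refine Finset.sum_congr rfl fun v hv => ?_
  rw [Finset.mem_sdiff, hmem, hmem] at hv
  have h : nv v = n + 1 := by
    obtain ⟨⟨h1, h2⟩, h3⟩ := hv
    by_contra hcon
    exact h3 ⟨by omega, h2⟩
  rw [h]
  push_cast
  rfl

theorem inv_le_cv (v : HeightOneSpectrum (𝓞 K)) : 1 / (nv v : ℝ) ≤ cv v := by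
  unfold cv
  have h4 := Real.log_le_sub_one_of_pos (x := 1 - 1 / (nv v : ℝ)) (by
    have h5 : (2 : ℝ) ≤ nv v := by exact_mod_cast two_le_nv v
    have : 1 / (nv v : ℝ) ≤ 1 / 2 := one_div_le_one_div_of_le (by norm_num) h5
    linarith)
  linarith

theorem mert_high : Tendsto (fun T : ℕ => (∑ v ∈ (SZ K T).filter (fun v => ¬ (nv v).Prime), Real.log (nv v) / nv v) / Real.log T)
    atTop (𝓝 0) := by
  classical
  obtain ⟨C, hC, hCb⟩ := Run7.h9.CM.nonprime_bound K
  obtain ⟨f, hf⟩ : ∃ f : HeightOneSpectrum (𝓞 K) → ℝ, f = fun v => if (nv v).Prime then 0 else 1 / (nv v : ℝ) := ⟨_, rfl⟩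
  have hf0 : ∀ v, 0 ≤ f v := fun v => by
    rw [hf]
    simp only
    split_ifs
    · exact le_rfl
    · have := nv_pos v; positivity
  have hfs : Summable f := by
    refine summable_of_sum_le hf0 (c := C) fun F => ?_
    have h1 : ∑ v ∈ F, f v = ∑ v ∈ F.filter (fun v => ¬ (nv v).Prime), 1 / (nv v : ℝ) := by
      rw [Finset.sum_filter, hf]
      refine Finset.sum_congr rfl fun v _ => ?_
      by_cases h : (nv v).Prime
      · simp [h]
      · simp [h]
    rw [h1]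
    refine (Finset.sum_le_sum fun v _ => inv_le_cv K v).trans (hCb _ fun v hv => (Finset.mem_filter.1 hv).2)
  have hlog : Tendsto (fun Z : ℕ => Real.log (Z : ℝ)) atTop atTop := Real.tendsto_log_atTop.comp tendsto_natCast_atTop_atTop
  obtain ⟨G, hG⟩ : ∃ G : ℕ → HeightOneSpectrum (𝓞 K) → ℝ, G = fun T v => if v ∈ (SZ K T).filter (fun v => ¬ (nv v).Prime) then
    (Real.log (nv v) / nv v) / Real.log T else 0 := ⟨_, rfl⟩
  have h1 : Tendsto (fun T => ∑' v, G T v) atTop (𝓝 (∑' _v : HeightOneSpectrum (𝓞 K), (0 : ℝ))) := by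
    refine tendsto_tsum_of_dominated_convergence hfs (fun v => ?_) (Filter.eventually_atTop.2 ⟨2, fun T hT v => ?_⟩)
    · have h2 : Tendsto (fun T : ℕ => (Real.log (nv v) / nv v) / Real.log T) atTop (𝓝 0) := Tendsto.const_div_atTop hlog _
      refine squeeze_zero' (Filter.eventually_atTop.2 ⟨2, fun T hT => ?_⟩) (Filter.eventually_atTop.2 ⟨2, fun T hT => ?_⟩) h2
      · rw [hG]
        simp only
        have := log_Z_pos hT
        have := log_nv_pos v
        have := nv_pos v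
        split_ifs
        · positivity
        · exact le_rfl
      · rw [hG]
        simp only
        have := log_Z_pos hT
        have := log_nv_pos v
        have := nv_pos v
        split_ifs
        · exact le_rfl
        · positivity
    · rw [hG, hf]
      simp only
      have h2 := log_Z_pos hT
      have h3 := log_nv_pos v
      have h4 := nv_pos v
      by_cases hv : v ∈ (SZ K T).filter (fun v => ¬ (nv v).Prime)
      · rw [if_pos hv, if_neg (Finset.mem_filter.1 hv).2, Real.norm_of_nonneg (by positivity)]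
        have h5 := (xx_facts hT (Finset.mem_filter.1 hv).1).2
        unfold xx at h5
        have e : Real.log (nv v) / (nv v) / Real.log T = (Real.log (nv v) / Real.log T) * (1 / nv v) := by ring
        rw [e]
        exact mul_le_of_le_one_left (by positivity) h5
      · rw [if_neg hv, norm_zero]
        split_ifs
        · exact le_rfl
        · positivity
  rw [tsum_zero] at h1
  refine h1.congr fun T => ?_
  rw [tsum_eq_sum (s := (SZ K T).filter (fun v => ¬ (nv v).Prime)) (fun v hv => by rw [hG]; simp only; rw [if_neg hv]), Finset.sum_div]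
  refine Finset.sum_congr rfl fun v hv => ?_
  rw [hG]
  simp only
  rw [if_pos hv]

theorem mert : Tendsto (fun T : ℕ => (∑ v ∈ SZ K T, Real.log (nv v) / nv v) / Real.log T) atTop (𝓝 1) := by
  classical
  have h := (mert_PZ K).add (mert_high K)
  rw [add_zero] at h
  refine h.congr fun T => ?_
  rw [← add_div]
  congr 1
  exact Finset.sum_filter_add_sum_filter_not (SZ K T) (fun v => (nv v).Prime) _

theorem log_floor {y : ℝ} (h : 0 < y) : Tendsto (fun Z : ℕ => Real.log (⌊(Z : ℝ) ^ y⌋₊ : ℝ) / Real.log Z) atTop (𝓝 y) := by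
  have hu : Tendsto (fun Z : ℕ => (Z : ℝ) ^ y) atTop atTop := (tendsto_rpow_atTop h).comp tendsto_natCast_atTop_atTop
  have h1 : Tendsto (fun Z : ℕ => ((⌊(Z : ℝ) ^ y⌋₊ : ℝ)) / (Z : ℝ) ^ y) atTop (𝓝 1) :=
    (tendsto_nat_floor_div_atTop (R := ℝ)).comp hu
  have h2 : Tendsto (fun Z : ℕ => Real.log (((⌊(Z : ℝ) ^ y⌋₊ : ℝ)) / (Z : ℝ) ^ y)) atTop (𝓝 0) := by
    have := h1.log one_ne_zero
    rwa [Real.log_one] at this
  have hlog : Tendsto (fun Z : ℕ => Real.log (Z : ℝ)) atTop atTop := Real.tendsto_log_atTop.comp tendsto_natCast_atTop_atTop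
  have h3 := (tendsto_const_nhds (x := y)).add (h2.div_atTop hlog)
  rw [add_zero] at h3
  refine h3.congr' ?_
  have h4 := (tendsto_nat_floor_atTop.comp hu).eventually_ge_atTop 1
  filter_upwards [h4, Filter.eventually_ge_atTop 2] with Z hZ1 hZ2
  have hf : (0 : ℝ) < (⌊(Z : ℝ) ^ y⌋₊ : ℝ) := by
    have h5 : (1 : ℕ) ≤ ⌊(Z : ℝ) ^ y⌋₊ := hZ1
    exact_mod_cast h5
  have hZ0 : (0 : ℝ) < Z := by
    have : 0 < Z := by omega
    exact_mod_cast this
  have hl := log_Z_pos hZ2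
  rw [Real.log_div hf.ne' (by positivity), Real.log_rpow hZ0]
  field_simp
  ring

theorem FF_tendsto {y : ℝ} (hy : y ∈ Set.Icc (0 : ℝ) 1) : Tendsto (fun Z => FF (SZ K Z) (mu Z) (xx Z) y) atTop (𝓝 y) := by
  classical
  rcases eq_or_lt_of_le hy.1 with h | h
  · rw [← h]
    refine tendsto_const_nhds.congr' (Filter.eventually_atTop.2 ⟨2, fun Z hZ => ?_⟩)
    show (0 : ℝ) = FF (SZ K Z) (mu Z) (xx Z) 0
    unfold FF
    symm
    refine Finset.sum_eq_zero fun v hv => ?_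
    rw [Finset.mem_filter] at hv
    have := (xx_facts hZ hv.1).1
    linarith [hv.2]
  · have hu : Tendsto (fun Z : ℕ => (Z : ℝ) ^ y) atTop atTop := (tendsto_rpow_atTop h).comp tendsto_natCast_atTop_atTop
    have hfl : Tendsto (fun Z : ℕ => ⌊(Z : ℝ) ^ y⌋₊) atTop atTop := tendsto_nat_floor_atTop.comp hu
    have h3 := ((mert K).comp hfl).mul (log_floor h)
    rw [one_mul] at h3
    refine h3.congr' ?_
    filter_upwards [hfl.eventually_ge_atTop 2, Filter.eventually_ge_atTop 2] with Z hZ1 hZ2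
    have hl := log_Z_pos hZ2
    have hl2 := log_Z_pos hZ1
    have hZ0 : (0 : ℝ) < Z := by
      have : 0 < Z := by omega
      exact_mod_cast this
    have hZ1' : (1 : ℝ) ≤ Z := by
      have : 1 ≤ Z := by omega
      exact_mod_cast this
    show (∑ v ∈ SZ K ⌊(Z : ℝ) ^ y⌋₊, Real.log (nv v) / nv v) / Real.log (⌊(Z : ℝ) ^ y⌋₊ : ℝ) *
      (Real.log (⌊(Z : ℝ) ^ y⌋₊ : ℝ) / Real.log Z) = FF (SZ K Z) (mu Z) (xx Z) y
    have e : (SZ K Z).filter (fun v => xx Z v ≤ y) = SZ K ⌊(Z : ℝ) ^ y⌋₊ := by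
      ext v
      rw [Finset.mem_filter, mem_SZ, mem_SZ, Nat.le_floor_iff (by positivity)]
      have h5 : xx Z v ≤ y ↔ (nv v : ℝ) ≤ (Z : ℝ) ^ y := by
        unfold xx
        rw [div_le_iff₀ hl, ← Real.log_rpow hZ0, Real.log_le_log_iff (nv_pos v) (by positivity)]
      rw [h5]
      refine ⟨fun h => h.2, fun h => ⟨?_, h⟩⟩
      have h6 : (Z : ℝ) ^ y ≤ (Z : ℝ) ^ (1 : ℝ) := Real.rpow_le_rpow_of_exponent_le hZ1' hy.2
      rw [Real.rpow_one] at h6
      exact_mod_cast h.trans h6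
    have e2 : FF (SZ K Z) (mu Z) (xx Z) y = ∑ v ∈ SZ K ⌊(Z : ℝ) ^ y⌋₊, mu Z v := by
      unfold FF
      refine Finset.sum_congr ?_ fun _ _ => rfl
      rw [← e]
    rw [e2]
    have e3 : ∀ v ∈ SZ K ⌊(Z : ℝ) ^ y⌋₊, mu Z v = (Real.log (nv v) / nv v) / Real.log Z := by
      intro v _
      unfold mu xx
      ring
    rw [Finset.sum_congr rfl e3, ← Finset.sum_div]
    field_simp

/-- **The places on the logarithmic scale.** -/
theorem main_sum (g : ℝ → ℝ) (hg : Continuous g) :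
    Tendsto (fun Z => ∑ v ∈ SZ K Z, mu Z v * g (xx Z v)) atTop (𝓝 (∫ y in (0 : ℝ)..1, g y)) :=
  tendsto_of_FF (fun Z => SZ K Z) (fun Z => mu Z) (fun Z => xx Z) (Z₀ := 2) (fun _ hZ _ hv => mu_nonneg hZ hv)
    (fun _ hZ _ hv => xx_facts hZ hv) (fun _ hy => FF_tendsto K hy) g hg

/-- the fourth root of `1 / Nv` -/
noncomputable def hh {K : Type} [Field K] [NumberField K] (v : HeightOneSpectrum (𝓞 K)) : ℝ := (nv v : ℝ) ^ (-(1 / 4) : ℝ)

theorem hh_facts {K : Type} [Field K] [NumberField K] (v : HeightOneSpectrum (𝓞 K)) : 0 < hh v ∧ hh v ≤ 1 ∧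
    1 / Real.sqrt (nv v) ≤ hh v ∧ 1 / (nv v : ℝ) ≤ hh v := by
  have hq := nv_pos v
  have hq1 : (1 : ℝ) ≤ nv v := by
    have := two_le_nv v
    exact_mod_cast (by omega : 1 ≤ nv v)
  refine ⟨Real.rpow_pos_of_pos hq _, Real.rpow_le_one_of_one_le_of_nonpos hq1 (by norm_num), ?_, ?_⟩
  · rw [Real.sqrt_eq_rpow, one_div, ← Real.rpow_neg hq.le]
    exact Real.rpow_le_rpow_of_exponent_le hq1 (by norm_num)
  · rw [one_div, ← Real.rpow_neg_one]
    exact Real.rpow_le_rpow_of_exponent_le hq1 (by norm_num)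

theorem err_sum : Tendsto (fun Z => ∑ v ∈ SZ K Z, xx Z v / nv v * hh v) atTop (𝓝 0) := by
  have hs := Pool.Agent.H921R2.TatePole.nm_summable (K := K) (x := 9 / 8) (by norm_num)
  obtain ⟨T, hT⟩ : ∃ T : ℝ, T = ∑' v : HeightOneSpectrum (𝓞 K), (nv v : ℝ) ^ (-(9 / 8) : ℝ) := ⟨_, rfl⟩
  have hlog : Tendsto (fun Z : ℕ => Real.log (Z : ℝ)) atTop atTop := Real.tendsto_log_atTop.comp tendsto_natCast_atTop_atTop
  have h1 : Tendsto (fun Z : ℕ => 8 * T / Real.log Z) atTop (𝓝 0) := Tendsto.const_div_atTop hlog _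
  refine squeeze_zero' (Filter.eventually_atTop.2 ⟨2, fun Z hZ => ?_⟩) (Filter.eventually_atTop.2 ⟨2, fun Z hZ => ?_⟩) h1
  · exact Finset.sum_nonneg fun v hv => mul_nonneg (div_nonneg (xx_facts hZ hv).1.le (nv_pos v).le) (hh_facts v).1.le
  · have hl := log_Z_pos hZ
    have h2 : ∀ v ∈ SZ K Z, xx Z v / nv v * hh v ≤ 8 / Real.log Z * (nv v : ℝ) ^ (-(9 / 8) : ℝ) := by
      intro v _
      have hq := nv_pos v
      have h3 := Real.log_le_rpow_div (x := (nv v : ℝ)) hq.le (show (0 : ℝ) < 1 / 8 by norm_num)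
      have e2 : (nv v : ℝ) ^ (-(9 / 8) : ℝ) = (nv v : ℝ) ^ (1 / 8 : ℝ) / (nv v : ℝ) * hh v := by
        unfold hh
        rw [← Real.rpow_sub_one hq.ne', ← Real.rpow_add hq]
        norm_num
      have h0 := (hh_facts v).1
      unfold xx
      rw [e2]
      have h4 : Real.log (nv v) ≤ 8 * (nv v : ℝ) ^ (1 / 8 : ℝ) := by
        refine h3.trans (le_of_eq ?_)
        ring
      calc Real.log (nv v) / Real.log Z / nv v * hh v ≤ (8 * (nv v : ℝ) ^ (1 / 8 : ℝ)) / Real.log Z / nv v * hh v := by gcongr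
        _ = _ := by ring
    refine (Finset.sum_le_sum h2).trans ?_
    rw [← Finset.mul_sum]
    have h3 : ∑ v ∈ SZ K Z, (nv v : ℝ) ^ (-(9 / 8) : ℝ) ≤ T := by
      rw [hT]
      exact hs.sum_le_tsum _ fun v _ => by
        have := (nv_pos v).le
        positivity
    calc 8 / Real.log Z * ∑ v ∈ SZ K Z, (nv v : ℝ) ^ (-(9 / 8) : ℝ) ≤ 8 / Real.log Z * T :=
          mul_le_mul_of_nonneg_left h3 (by positivity)
      _ = _ := by ring

end

end Run7.h876.MN
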