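import Pool.Agent.Run7.h876.PW.AllA
import Pool.Agent.Run7.h876.MN.Step

/-!
# Sums of independent small variables
-/

set_option autoImplicit false
set_option linter.unusedSectionVars false

namespace Run7.h876.MN

open NumberField IsDedekindDomain Finset Filter Topology
open Run7.h876.MM (nv kv two_le_nv nv_pos avg norm_avg_le SZ mem_SZ card_SZ instFieldKv instFintypeKv instDecKv)
open Run7.h876.EN Run7.h876.PW

theorem av_const {Ω : Type*} [Fintype Ω] [Nonempty Ω] (c : ℝ) : av (Finset.univ : Finset Ω) (fun _ => c) = c := by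
  unfold av
  rw [Finset.sum_const, nsmul_eq_mul, mul_comm, mul_div_assoc, div_self, mul_one]
  rw [Finset.card_univ]
  exact_mod_cast Fintype.card_pos.ne'

theorem avg_const' {Ω : Type*} [Fintype Ω] [Nonempty Ω] (c : ℂ) : avg (Finset.univ : Finset Ω) (fun _ => c) = c := by
  unfold avg
  rw [Finset.sum_const, nsmul_eq_mul, mul_comm, mul_div_assoc, div_self, mul_one]
  rw [Finset.card_univ]
  exact_mod_cast Fintype.card_pos.ne'

theorem av_le_const {Ω : Type*} [Fintype Ω] [Nonempty Ω] {f : Ω → ℝ} {c : ℝ} (h : ∀ t, f t ≤ c) : av (Finset.univ : Finset Ω) f ≤ c := by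
  rw [← av_const (Ω := Ω) c]
  exact av_mono _ h

theorem avg_sub2 {α : Type*} (B : Finset α) (f g : α → ℂ) : avg B f - avg B g = avg B (fun c => f c - g c) := by
  unfold avg
  rw [← sub_div, ← Finset.sum_sub_distrib]

/-- The characteristic function of a centred small variable. -/
theorem char_local {Ω : Type*} [Fintype Ω] [Nonempty Ω] (f : Ω → ℝ) {c : ℝ} (hc : c ≤ 1) (hf : ∀ t, |f t| ≤ c)
    (h0 : av Finset.univ f = 0) :
    ‖avg Finset.univ (fun t => Complex.exp (Complex.I * f t)) - Complex.exp ((-(av Finset.univ (fun t => f t ^ 2) / 2) : ℝ) : ℂ)‖ ≤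
      c ^ 3 := by
  have hc0 : 0 ≤ c := by
    obtain ⟨t⟩ := (inferInstance : Nonempty Ω)
    exact (abs_nonneg _).trans (hf t)
  obtain ⟨σ, hσ⟩ : ∃ σ, σ = av Finset.univ (fun t => f t ^ 2) := ⟨_, rfl⟩
  rw [← hσ]
  have hσ0 : 0 ≤ σ := by rw [hσ]; exact av_nonneg _ fun t => sq_nonneg _
  have hσ1 : σ ≤ c ^ 2 := by
    rw [hσ]
    refine av_le_const fun t => ?_
    rw [← sq_abs]
    exact pow_le_pow_left₀ (abs_nonneg _) (hf t) 2
  -- the Taylor polynomial
  have h1 : ‖avg Finset.univ (fun t => Complex.exp (Complex.I * f t)) - ((1 - σ / 2 : ℝ) : ℂ)‖ ≤ c ^ 3 / 6 := by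
    have e1 : ((1 - σ / 2 : ℝ) : ℂ) = avg Finset.univ (fun t => (1 : ℂ) + Complex.I * (f t : ℂ) - ((f t ^ 2 : ℝ) : ℂ) / 2) := by
      have g1 : avg Finset.univ (fun t => (f t : ℂ)) = 0 := by rw [avg_av, h0, Complex.ofReal_zero]
      have g2 : avg Finset.univ (fun t => ((f t ^ 2 : ℝ) : ℂ)) = (σ : ℂ) := by rw [avg_av, ← hσ]
      have g3 : avg (Finset.univ : Finset Ω) (fun _ => (1 : ℂ)) = 1 := avg_const' 1
      unfold avg at g1 g2 g3 ⊢
      rw [Finset.sum_sub_distrib, Finset.sum_add_distrib, sub_div, add_div, g3, ← Finset.mul_sum, mul_div_assoc, g1,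
        ← Finset.sum_div, div_right_comm, g2]
      push_cast
      ring
    rw [e1]
    have e2 : avg Finset.univ (fun t => Complex.exp (Complex.I * f t)) -
        avg Finset.univ (fun t => (1 : ℂ) + Complex.I * (f t : ℂ) - ((f t ^ 2 : ℝ) : ℂ) / 2) =
        avg Finset.univ (fun t => Complex.exp (Complex.I * f t) - ((1 : ℂ) + Complex.I * (f t : ℂ) - ((f t ^ 2 : ℝ) : ℂ) / 2)) :=
      avg_sub2 _ _ _
    rw [e2]
    refine (norm_avg_le_av _ _ (fun _ => c ^ 3 / 6) fun t => ?_).trans (av_const (Ω := Ω) _).le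
    have h2 := taylor_exp_I 3 (f t)
    have e3 : ∑ j ∈ range 3, ((f t : ℂ) * Complex.I) ^ j / (j.factorial : ℂ) = (1 : ℂ) + Complex.I * (f t : ℂ) - ((f t ^ 2 : ℝ) : ℂ) / 2 := by
      rw [Finset.sum_range_succ, Finset.sum_range_succ, Finset.sum_range_one, mul_pow _ _ 2, Complex.I_sq]
      push_cast
      norm_num [Nat.factorial]
      ring
    rw [e3, mul_comm (f t : ℂ) Complex.I] at h2
    refine h2.trans ?_
    have h3 : |f t| ^ 3 ≤ c ^ 3 := pow_le_pow_left₀ (abs_nonneg _) (hf t) 3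
    have e4 : ((Nat.factorial 3 : ℕ) : ℝ) = 6 := by norm_num [Nat.factorial]
    rw [e4]
    exact div_le_div_of_nonneg_right h3 (by norm_num)
  have h2 : ‖((1 - σ / 2 : ℝ) : ℂ) - Complex.exp ((-(σ / 2) : ℝ) : ℂ)‖ ≤ c ^ 3 / 4 := by
    have e1 : ((1 - σ / 2 : ℝ) : ℂ) - Complex.exp ((-(σ / 2) : ℝ) : ℂ) = ((-(Real.exp (-(σ / 2)) - 1 - (-(σ / 2))) : ℝ) : ℂ) := by
      push_cast
      ring
    rw [e1, Complex.norm_real, norm_neg, Real.norm_eq_abs]
    have hc2 : c ^ 2 ≤ 1 := pow_le_one₀ hc0 hc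
    have h3 := Real.abs_exp_sub_one_sub_id_le (x := -(σ / 2)) (by rw [abs_neg, abs_of_nonneg (by positivity)]; linarith)
    refine h3.trans ?_
    have h4 : σ ^ 2 ≤ (c ^ 2) ^ 2 := pow_le_pow_left₀ hσ0 hσ1 2
    have h5 : (c ^ 2) ^ 2 ≤ c ^ 3 := by
      have : c ^ 3 * c ≤ c ^ 3 * 1 := mul_le_mul_of_nonneg_left hc (by positivity)
      calc (c ^ 2) ^ 2 = c ^ 3 * c := by ring
        _ ≤ c ^ 3 * 1 := this
        _ = _ := mul_one _
    have e2 : (-(σ / 2)) ^ 2 = σ ^ 2 / 4 := by ring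
    rw [e2]
    linarith
  refine (norm_sub_le_norm_sub_add_norm_sub _ _ _).trans ((add_le_add h1 h2).trans ?_)
  have : 0 ≤ c ^ 3 := by positivity
  linarith

/-- Products of numbers of absolute value at most one. -/
theorem prod_diff {β : Type*} (F : Finset β) (a b : β → ℂ) (ha : ∀ v ∈ F, ‖a v‖ ≤ 1) (hb : ∀ v ∈ F, ‖b v‖ ≤ 1) :
    ‖∏ v ∈ F, a v - ∏ v ∈ F, b v‖ ≤ ∑ v ∈ F, ‖a v - b v‖ := by
  classical
  induction F using Finset.induction_on with
  | empty => simp
  | insert w F hw ih =>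
    rw [Finset.prod_insert hw, Finset.prod_insert hw, Finset.sum_insert hw]
    have h1 := ih (fun v hv => ha v (Finset.mem_insert_of_mem hv)) (fun v hv => hb v (Finset.mem_insert_of_mem hv))
    have e : a w * ∏ v ∈ F, a v - b w * ∏ v ∈ F, b v = (a w - b w) * ∏ v ∈ F, a v + b w * (∏ v ∈ F, a v - ∏ v ∈ F, b v) := by ring
    rw [e]
    refine (norm_add_le _ _).trans ?_
    rw [norm_mul, norm_mul]
    have h2 : ‖∏ v ∈ F, a v‖ ≤ 1 := by
      rw [norm_prod]
      exact Finset.prod_le_one (fun _ _ => norm_nonneg _) fun v hv => ha v (Finset.mem_insert_of_mem hv)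
    have h3 := hb w (Finset.mem_insert_self _ _)
    have h4 : ‖a w - b w‖ * ‖∏ v ∈ F, a v‖ ≤ ‖a w - b w‖ := mul_le_of_le_one_right (norm_nonneg _) h2
    have h5 : ‖b w‖ * ‖∏ v ∈ F, a v - ∏ v ∈ F, b v‖ ≤ ‖∏ v ∈ F, a v - ∏ v ∈ F, b v‖ := mul_le_of_le_one_left (norm_nonneg _) h3
    linarith

section
variable {K : Type} [Field K] [NumberField K] {J : Type} [Fintype J] [DecidableEq J]
variable (X : ∀ v : HeightOneSpectrum (𝓞 K), (J → kv v) → ℝ) (c : HeightOneSpectrum (𝓞 K) → ℝ)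

/-- The characteristic function of the sum of the independent variables. -/
theorem char_model (F : Finset (HeightOneSpectrum (𝓞 K))) (hX : ∀ v ∈ F, ∀ t, |X v t| ≤ c v) (h0 : ∀ v, av Finset.univ (X v) = 0)
    (hc : ∀ v ∈ F, c v ≤ 1) :
    ‖avg (Finset.univ : Finset (TS F J)) (fun t => Complex.exp (Complex.I * (SM X F t : ℂ))) -
      Complex.exp ((-((∑ v ∈ F, av Finset.univ (fun t => X v t ^ 2)) / 2) : ℝ) : ℂ)‖ ≤ ∑ v ∈ F, c v ^ 3 := by
  rw [exp_SM]
  have e : Complex.exp ((-((∑ v ∈ F, av Finset.univ (fun t => X v t ^ 2)) / 2) : ℝ) : ℂ) =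
      ∏ v ∈ F, Complex.exp ((-(av Finset.univ (fun t => X v t ^ 2) / 2) : ℝ) : ℂ) := by
    rw [← Complex.exp_sum]
    congr 1
    push_cast
    rw [Finset.sum_div, Finset.sum_neg_distrib]
  rw [e]
  refine (prod_diff F _ _ (fun v _ => ?_) (fun v _ => ?_)).trans (Finset.sum_le_sum fun v hv => char_local (X v) (hc v hv) (hX v hv) (h0 v))
  · refine (norm_avg_le_av _ _ (fun _ => (1 : ℝ)) fun t => ?_).trans (av_const _).le
    rw [Complex.norm_exp]
    have : (Complex.I * (X v t : ℂ)).re = 0 := by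
      rw [Complex.re_mul_ofReal]
      simp
    rw [this, Real.exp_zero]
  · rw [Complex.norm_exp, Complex.ofReal_re, Real.exp_le_one_iff]
    have := av_nonneg (Finset.univ : Finset (J → kv v)) (f := fun t => X v t ^ 2) fun t => sq_nonneg _
    linarith

/-- The exponential moments. -/
theorem exp_model (F : Finset (HeightOneSpectrum (𝓞 K))) (hX : ∀ v ∈ F, ∀ t, |X v t| ≤ c v) (h0 : ∀ v, av Finset.univ (X v) = 0)
    {g : ℝ} (hg : ∑ v ∈ F, c v ^ 2 ≤ g) (b : ℝ) :
    av (Finset.univ : Finset (TS F J)) (fun t => Real.exp (b * SM X F t)) ≤ Real.exp (b ^ 2 * g / 2) := by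
  have h1 : ((av (Finset.univ : Finset (TS F J)) (fun t => Real.exp (b * SM X F t)) : ℝ) : ℂ) =
      ((∏ v ∈ F, av Finset.univ (fun t => Real.exp (b * X v t)) : ℝ) : ℂ) := by
    rw [← avg_av]
    push_cast
    rw [exp_SM]
    refine Finset.prod_congr rfl fun v _ => ?_
    rw [← avg_av]
    congr 1
    funext t
    push_cast
    rfl
  have h2 := Complex.ofReal_injective h1
  rw [h2]
  calc ∏ v ∈ F, av Finset.univ (fun t => Real.exp (b * X v t)) ≤ ∏ v ∈ F, Real.exp (b ^ 2 * c v ^ 2 / 2) := by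
        refine Finset.prod_le_prod (fun v _ => av_nonneg _ fun t => (Real.exp_pos _).le) fun v hv => ?_
        have hc0 : 0 ≤ c v := (abs_nonneg _).trans (hX v hv fun _ => 0)
        rcases eq_or_lt_of_le hc0 with h | h
        · have h3 : ∀ t, X v t = 0 := fun t => by
            have := hX v hv t
            rw [← h] at this
            exact abs_nonpos_iff.1 this
          simp only [h3, mul_zero, Real.exp_zero]
          rw [av_const]
          exact Real.one_le_exp (by positivity)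
        · exact Al.exp_centred (X v) h (hX v hv) (h0 v) b
    _ = Real.exp (∑ v ∈ F, b ^ 2 * c v ^ 2 / 2) := (Real.exp_sum _ _).symm
    _ ≤ _ := by
        refine Real.exp_le_exp.2 ?_
        rw [← Finset.sum_div, ← Finset.mul_sum]
        have : 0 ≤ b ^ 2 := by positivity
        nlinarith

/-- The even moments. -/
theorem even_model (F : Finset (HeightOneSpectrum (𝓞 K))) (hX : ∀ v ∈ F, ∀ t, |X v t| ≤ c v) (h0 : ∀ v, av Finset.univ (X v) = 0)
    {g : ℝ} (hg0 : 0 < g) (hg : ∑ v ∈ F, c v ^ 2 ≤ g) (k : ℕ) (hk : 1 ≤ k) :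
    av (Finset.univ : Finset (TS F J)) (fun t => SM X F t ^ (2 * k)) ≤
      (2 * k).factorial * (2 * (g * Real.exp 1 / (2 * k)) ^ k) := by
  have hk0 : (0 : ℝ) < k := by exact_mod_cast hk
  have h2k : (0 : ℝ) < 2 * k := by positivity
  obtain ⟨b, hb⟩ : ∃ b : ℝ, b = Real.sqrt (2 * k / g) := ⟨_, rfl⟩
  have hb0 : 0 < b := by rw [hb]; exact Real.sqrt_pos.2 (by positivity)
  have hb2 : b ^ 2 = 2 * k / g := by rw [hb]; exact Real.sq_sqrt (by positivity)
  have h1 := exp_model X c F hX h0 hg b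
  have h2 := exp_model X c F hX h0 hg (-b)
  rw [neg_sq] at h2
  have e1 : b ^ 2 * g / 2 = k := by rw [hb2]; field_simp
  rw [e1] at h1 h2
  have hfac : (0 : ℝ) < (2 * k).factorial := by exact_mod_cast Nat.factorial_pos _
  have h3 : ∀ t : TS F J, SM X F t ^ (2 * k) ≤ (2 * k).factorial / b ^ (2 * k) *
      (Real.exp (b * SM X F t) + Real.exp (-b * SM X F t)) := by
    intro t
    obtain ⟨y, hy⟩ : ∃ y, y = SM X F t := ⟨_, rfl⟩
    rw [← hy]
    have h4 := Real.pow_div_factorial_le_exp |b * y| (abs_nonneg _) (2 * k)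
    have h5 : |b * y| ^ (2 * k) = b ^ (2 * k) * y ^ (2 * k) := by
      rw [← mul_pow, pow_mul, sq_abs, ← pow_mul]
    have h6 : Real.exp |b * y| ≤ Real.exp (b * y) + Real.exp (-b * y) := by
      rcases abs_cases (b * y) with ⟨h, _⟩ | ⟨h, _⟩ <;> rw [h]
      · have := Real.exp_pos (-b * y); linarith
      · rw [← neg_mul]; have := Real.exp_pos (b * y); linarith
    rw [h5, div_le_iff₀ hfac] at h4
    have hbk : 0 < b ^ (2 * k) := by positivity
    calc y ^ (2 * k) = b ^ (2 * k) * y ^ (2 * k) / b ^ (2 * k) := by field_simp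
      _ ≤ (Real.exp |b * y| * (2 * k).factorial) / b ^ (2 * k) := div_le_div_of_nonneg_right h4 hbk.le
      _ ≤ ((Real.exp (b * y) + Real.exp (-b * y)) * (2 * k).factorial) / b ^ (2 * k) := by gcongr
      _ = _ := by ring
  refine (av_mono _ h3).trans ?_
  rw [av_mul, av_add]
  have e2 : b ^ (2 * k) = (2 * k / g) ^ k := by rw [pow_mul, hb2]
  have e3 : Real.exp (k : ℝ) = Real.exp 1 ^ k := by rw [← Real.exp_nat_mul, mul_one]
  calc (2 * k).factorial / b ^ (2 * k) * _ ≤ (2 * k).factorial / b ^ (2 * k) * (Real.exp k + Real.exp k) :=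
        mul_le_mul_of_nonneg_left (add_le_add h1 h2) (by positivity)
    _ = (2 * k).factorial * (2 * (g * Real.exp 1 / (2 * k)) ^ k) := by
        rw [e2, e3]
        have e4 : g * Real.exp 1 / (2 * k) = Real.exp 1 / (2 * k / g) := by field_simp
        rw [e4, div_pow (Real.exp 1)]
        ring

end

end Run7.h876.MN
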