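import Pool.Agent.Run7.h876.PW.Close
import Pool.Agent.Run7.h876.PW.Clt
import Pool.Agent.Run7.h876.MN.Mert
import Pool.Agent.Run7.h876.MN.Mod

/-!
# The law of weighted sums of local functions
-/

set_option autoImplicit false
set_option linter.unusedSectionVars false

namespace Run7.h876.MN

open NumberField IsDedekindDomain Finset Filter Topology
open Run7.h876.MM (nv kv two_le_nv nv_pos avg norm_avg_le SZ mem_SZ card_SZ instFieldKv instFintypeKv instDecKv)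
open Run7.h876.EN Run7.h876.PW
open Run7.h9.BS (cv cv_pos)

/-- Local functions with given asymptotic means and covariances. -/
structure TraceData (K : Type) [Field K] [NumberField K] (J : Type) [Fintype J] [DecidableEq J] (I : Type) where
  /-- the functions -/
  a : I → ∀ v : HeightOneSpectrum (𝓞 K), (J → kv v) → ℝ
  /-- the means with the opposite sign -/
  r : I → ℝ
  /-- the covariances -/
  D : I → I → ℝ
  /-- the constant -/
  C : ℝ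
  C_nonneg : 0 ≤ C
  a_le : ∀ i v t, |a i v t| ≤ C * Real.sqrt (nv v)
  a_mean : ∀ i v, |av Finset.univ (a i v) + r i| ≤ C * hh v
  a_cov : ∀ i j v, |av Finset.univ (fun t => a i v t * a j v t) / nv v - D i j| ≤ C * hh v

section
variable {K : Type} [Field K] [NumberField K] {J : Type} [Fintype J] [DecidableEq J] {I : Type} [Fintype I]

theorem sqrt_facts (v : HeightOneSpectrum (𝓞 K)) : 1 ≤ Real.sqrt (nv v) ∧ Real.sqrt (nv v) * Real.sqrt (nv v) = nv v := by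
  refine ⟨Real.one_le_sqrt.2 ?_, Real.mul_self_sqrt (nv_pos v).le⟩
  have := two_le_nv v
  exact_mod_cast (by omega : 1 ≤ nv v)

/-- the position, cut off -/
noncomputable def yy (Z : ℕ) (v : HeightOneSpectrum (𝓞 K)) : ℝ := if nv v ≤ Z then xx Z v else 0

theorem yy_eq {Z : ℕ} {v : HeightOneSpectrum (𝓞 K)} (hv : v ∈ SZ K Z) : yy Z v = xx Z v := by
  unfold yy
  rw [if_pos (mem_SZ.1 hv)]

theorem yy_facts {Z : ℕ} (hZ : 2 ≤ Z) (v : HeightOneSpectrum (𝓞 K)) : 0 ≤ yy Z v ∧ yy Z v ≤ 1 := by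
  unfold yy
  split_ifs with h
  · obtain ⟨h1, h2⟩ := xx_facts hZ (mem_SZ.2 h)
    exact ⟨h1.le, h2⟩
  · exact ⟨le_rfl, zero_le_one⟩

variable (𝓣 : TraceData K J I) (W : I → ℝ → ℝ)

/-- the local summand -/
noncomputable def Y (Z : ℕ) (v : HeightOneSpectrum (𝓞 K)) (t : J → kv v) : ℝ :=
  -∑ i, (yy Z v * W i (yy Z v)) * 𝓣.a i v t / nv v

/-- its mean -/
noncomputable def mm (Z : ℕ) (v : HeightOneSpectrum (𝓞 K)) : ℝ := av Finset.univ (Y 𝓣 W Z v)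

/-- the centred summand -/
noncomputable def XC (Z : ℕ) (v : HeightOneSpectrum (𝓞 K)) (t : J → kv v) : ℝ := Y 𝓣 W Z v t - mm 𝓣 W Z v

/-- **The weighted sum.** -/
noncomputable def SW (Z : ℕ) (t : J → 𝓞 K) : ℝ := ∑ v ∈ SZ K Z, Y 𝓣 W Z v (rd v t)

/-- the limit of the mean -/
noncomputable def mI : ℝ := ∫ y in (0 : ℝ)..1, ∑ i, 𝓣.r i * W i y

/-- the limit of the variance -/
noncomputable def vI : ℝ := ∫ y in (0 : ℝ)..1, y * ∑ i, ∑ j, 𝓣.D i j * W i y * W j y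

theorem exists_B (hW : ∀ i, Continuous (W i)) : ∃ B : ℝ, 0 ≤ B ∧ ∀ i, ∀ y ∈ Set.Icc (0 : ℝ) 1, |W i y| ≤ B := by
  have h1 : ∀ i, ∃ B : ℝ, ∀ y ∈ Set.Icc (0 : ℝ) 1, |W i y| ≤ B := fun i => by
    obtain ⟨B, hB⟩ := isCompact_Icc.exists_bound_of_continuousOn (hW i).continuousOn (s := Set.Icc (0 : ℝ) 1)
    exact ⟨B, hB⟩
  choose B hB using h1
  have hB0 : ∀ i, 0 ≤ B i := fun i => (abs_nonneg _).trans (hB i 0 ⟨le_rfl, zero_le_one⟩)
  refine ⟨∑ i, B i, Finset.sum_nonneg fun i _ => hB0 i, fun i y hy => (hB i y hy).trans ?_⟩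
  exact Finset.single_le_sum (f := B) (fun i _ => hB0 i) (Finset.mem_univ i)

theorem av_Y (Z : ℕ) (v : HeightOneSpectrum (𝓞 K)) :
    mm 𝓣 W Z v = -∑ i, (yy Z v * W i (yy Z v)) / nv v * av Finset.univ (𝓣.a i v) := by
  unfold mm
  have e : Y 𝓣 W Z v = fun t => (-1) * ∑ i, (yy Z v * W i (yy Z v)) / nv v * 𝓣.a i v t := by
    funext t
    unfold Y
    rw [neg_one_mul]
    congr 1
    refine Finset.sum_congr rfl fun i _ => ?_
    ring
  rw [e, av_mul, av_sum Finset.univ Finset.univ (fun i t => (yy Z v * W i (yy Z v)) / nv v * 𝓣.a i v t), neg_one_mul]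
  congr 1
  refine Finset.sum_congr rfl fun i _ => ?_
  rw [av_mul]

theorem av_Y2 (Z : ℕ) (v : HeightOneSpectrum (𝓞 K)) : av Finset.univ (fun t => Y 𝓣 W Z v t ^ 2) =
    ∑ i, ∑ j, (yy Z v * W i (yy Z v)) * (yy Z v * W j (yy Z v)) / nv v * (av Finset.univ (fun t => 𝓣.a i v t * 𝓣.a j v t) / nv v) := by
  have e : (fun t => Y 𝓣 W Z v t ^ 2) = fun t => ∑ i, ∑ j, ((yy Z v * W i (yy Z v)) * (yy Z v * W j (yy Z v)) / nv v / nv v) *
      (𝓣.a i v t * 𝓣.a j v t) := by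
    funext t
    unfold Y
    rw [neg_sq, sq, Finset.sum_mul_sum]
    refine Finset.sum_congr rfl fun i _ => Finset.sum_congr rfl fun j _ => ?_
    ring
  rw [e, av_sum Finset.univ Finset.univ (fun i t => ∑ j, ((yy Z v * W i (yy Z v)) * (yy Z v * W j (yy Z v)) / nv v / nv v) *
      (𝓣.a i v t * 𝓣.a j v t))]
  refine Finset.sum_congr rfl fun i _ => ?_
  rw [av_sum Finset.univ Finset.univ (fun j t => ((yy Z v * W i (yy Z v)) * (yy Z v * W j (yy Z v)) / nv v / nv v) *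
      (𝓣.a i v t * 𝓣.a j v t))]
  refine Finset.sum_congr rfl fun j _ => ?_
  rw [av_mul]
  ring

variable {𝓣 W}

/-- the constants -/
noncomputable def cA (𝓣 : TraceData K J I) (B : ℝ) : ℝ := Fintype.card I * B * 𝓣.C
noncomputable def cE (𝓣 : TraceData K J I) (B : ℝ) : ℝ :=
  (Fintype.card I : ℝ) ^ 2 * B ^ 2 * 𝓣.C + (B * (∑ i, |𝓣.r i|) + cA 𝓣 B) ^ 2

theorem cA_nonneg {B : ℝ} (hB : 0 ≤ B) : 0 ≤ cA 𝓣 B := by
  have := 𝓣.C_nonneg
  unfold cA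
  positivity

theorem cE_nonneg {B : ℝ} (hB : 0 ≤ B) : 0 ≤ cE 𝓣 B := by
  have := 𝓣.C_nonneg
  unfold cE
  positivity

theorem Y_le {B : ℝ} (hB : ∀ i, ∀ y ∈ Set.Icc (0 : ℝ) 1, |W i y| ≤ B) {Z : ℕ} (hZ : 2 ≤ Z)
    (v : HeightOneSpectrum (𝓞 K)) (t : J → kv v) : |Y 𝓣 W Z v t| ≤ cA 𝓣 B * yy Z v / Real.sqrt (nv v) := by
  obtain ⟨h0, h1⟩ := yy_facts hZ v
  obtain ⟨hQ1, hQQ⟩ := sqrt_facts v
  have hq := nv_pos v
  unfold Y cA
  rw [abs_neg]
  refine (Finset.abs_sum_le_sum_abs _ _).trans ?_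
  have h2 : ∀ i ∈ (Finset.univ : Finset I), |(yy Z v * W i (yy Z v)) * 𝓣.a i v t / nv v| ≤ B * 𝓣.C * yy Z v / Real.sqrt (nv v) := by
    intro i _
    have hQ0 : 0 < Real.sqrt (nv v) := by linarith
    rw [abs_div, abs_mul, abs_mul, abs_of_nonneg h0, abs_of_pos hq, div_le_div_iff₀ hq hQ0]
    have h3 := hB i (yy Z v) ⟨h0, h1⟩
    have h4 := 𝓣.a_le i v t
    have hC := 𝓣.C_nonneg
    have hB0 : 0 ≤ B := (abs_nonneg _).trans h3
    calc yy Z v * |W i (yy Z v)| * |𝓣.a i v t| * Real.sqrt (nv v) ≤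
          yy Z v * B * (𝓣.C * Real.sqrt (nv v)) * Real.sqrt (nv v) := by gcongr
      _ = B * 𝓣.C * yy Z v * (Real.sqrt (nv v) * Real.sqrt (nv v)) := by ring
      _ = _ := by rw [hQQ]
  refine (Finset.sum_le_sum h2).trans (le_of_eq ?_)
  rw [Finset.sum_const, Finset.card_univ, nsmul_eq_mul]
  ring

theorem mm_close {B : ℝ} (hB : ∀ i, ∀ y ∈ Set.Icc (0 : ℝ) 1, |W i y| ≤ B) {Z : ℕ} (hZ : 2 ≤ Z)
    (v : HeightOneSpectrum (𝓞 K)) : |mm 𝓣 W Z v - yy Z v / nv v * ∑ i, 𝓣.r i * W i (yy Z v)| ≤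
      cA 𝓣 B * (yy Z v / nv v * hh v) := by
  obtain ⟨h0, h1⟩ := yy_facts hZ v
  obtain ⟨hQ1, hQQ⟩ := sqrt_facts v
  have hq := nv_pos v
  have hQ0 : 0 < Real.sqrt (nv v) := by linarith
  have e : mm 𝓣 W Z v - yy Z v / nv v * ∑ i, 𝓣.r i * W i (yy Z v) =
      -∑ i, (yy Z v * W i (yy Z v)) / nv v * (av Finset.univ (𝓣.a i v) + 𝓣.r i) := by
    rw [av_Y, Finset.mul_sum, ← Finset.sum_neg_distrib, ← Finset.sum_neg_distrib, ← Finset.sum_sub_distrib]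
    refine Finset.sum_congr rfl fun i _ => ?_
    ring
  rw [e, abs_neg]
  refine (Finset.abs_sum_le_sum_abs _ _).trans ?_
  have h2 : ∀ i ∈ (Finset.univ : Finset I), |(yy Z v * W i (yy Z v)) / nv v * (av Finset.univ (𝓣.a i v) + 𝓣.r i)| ≤
      B * 𝓣.C * (yy Z v / nv v * hh v) := by
    intro i _
    have h3 := hB i (yy Z v) ⟨h0, h1⟩
    have h4 := 𝓣.a_mean i v
    have hC := 𝓣.C_nonneg
    have hB0 : 0 ≤ B := (abs_nonneg _).trans h3
    rw [abs_mul, abs_div, abs_mul, abs_of_nonneg h0, abs_of_pos hq]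
    have hh0 := (hh_facts v).1
    calc yy Z v * |W i (yy Z v)| / nv v * |av Finset.univ (𝓣.a i v) + 𝓣.r i| ≤
          yy Z v * B / nv v * (𝓣.C * hh v) := by gcongr
      _ = _ := by ring
  refine (Finset.sum_le_sum h2).trans (le_of_eq ?_)
  rw [Finset.sum_const, Finset.card_univ, nsmul_eq_mul]
  unfold cA
  ring

theorem mm_le {B : ℝ} (hB : ∀ i, ∀ y ∈ Set.Icc (0 : ℝ) 1, |W i y| ≤ B) {Z : ℕ} (hZ : 2 ≤ Z)
    (v : HeightOneSpectrum (𝓞 K)) (hB0 : 0 ≤ B) : |mm 𝓣 W Z v| ≤ (B * (∑ i, |𝓣.r i|) + cA 𝓣 B) * (yy Z v / nv v) := by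
  obtain ⟨h0, h1⟩ := yy_facts hZ v
  obtain ⟨hQ1, hQQ⟩ := sqrt_facts v
  have hq := nv_pos v
  have hQ0 : 0 < Real.sqrt (nv v) := by linarith
  have hA := cA_nonneg (𝓣 := 𝓣) hB0
  have h2 := mm_close (𝓣 := 𝓣) hB hZ v
  have h3 : |yy Z v / nv v * ∑ i, 𝓣.r i * W i (yy Z v)| ≤ B * (∑ i, |𝓣.r i|) * (yy Z v / nv v) := by
    rw [abs_mul, abs_of_nonneg (by positivity : 0 ≤ yy Z v / nv v), mul_comm]
    refine mul_le_mul_of_nonneg_right ?_ (by positivity)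
    refine (Finset.abs_sum_le_sum_abs _ _).trans ?_
    rw [Finset.mul_sum]
    refine Finset.sum_le_sum fun i _ => ?_
    rw [abs_mul, mul_comm]
    exact mul_le_mul_of_nonneg_right (hB i _ ⟨h0, h1⟩) (abs_nonneg _)
  have h4 : cA 𝓣 B * (yy Z v / nv v * hh v) ≤ cA 𝓣 B * (yy Z v / nv v) := by
    refine mul_le_mul_of_nonneg_left ?_ hA
    exact mul_le_of_le_one_right (by positivity) (hh_facts v).2.1
  have e : mm 𝓣 W Z v = (mm 𝓣 W Z v - yy Z v / nv v * ∑ i, 𝓣.r i * W i (yy Z v)) + yy Z v / nv v * ∑ i, 𝓣.r i * W i (yy Z v) := by ring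
  rw [e, add_mul]
  refine (abs_add_le _ _).trans ?_
  linarith

theorem XC_le {B : ℝ} (hB : ∀ i, ∀ y ∈ Set.Icc (0 : ℝ) 1, |W i y| ≤ B) {Z : ℕ} (hZ : 2 ≤ Z)
    (v : HeightOneSpectrum (𝓞 K)) (t : J → kv v) : |XC 𝓣 W Z v t| ≤ 2 * cA 𝓣 B * yy Z v / Real.sqrt (nv v) := by
  have h1 := Y_le (𝓣 := 𝓣) hB hZ v t
  have h2 : |mm 𝓣 W Z v| ≤ cA 𝓣 B * yy Z v / Real.sqrt (nv v) := by
    unfold mm
    rw [abs_le]
    constructor
    · rw [← av_const (Ω := J → kv v) (-(cA 𝓣 B * yy Z v / Real.sqrt (nv v)))]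
      exact av_mono _ fun t => (abs_le.1 (Y_le (𝓣 := 𝓣) hB hZ v t)).1
    · exact av_le_const fun t => (abs_le.1 (Y_le (𝓣 := 𝓣) hB hZ v t)).2
  unfold XC
  refine (abs_sub _ _).trans ((add_le_add h1 h2).trans (le_of_eq ?_))
  ring

theorem XC_mean (Z : ℕ) (v : HeightOneSpectrum (𝓞 K)) : av Finset.univ (XC 𝓣 W Z v) = 0 := by
  have e : XC 𝓣 W Z v = fun t => Y 𝓣 W Z v t + (-mm 𝓣 W Z v) := by
    funext t
    unfold XC
    ring
  rw [e, av_add, av_const]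
  show mm 𝓣 W Z v + -mm 𝓣 W Z v = 0
  ring

theorem XC_var (Z : ℕ) (v : HeightOneSpectrum (𝓞 K)) : av Finset.univ (fun t => XC 𝓣 W Z v t ^ 2) =
    av Finset.univ (fun t => Y 𝓣 W Z v t ^ 2) - mm 𝓣 W Z v ^ 2 := by
  have e : (fun t => XC 𝓣 W Z v t ^ 2) = fun t => Y 𝓣 W Z v t ^ 2 + ((-2 * mm 𝓣 W Z v) * Y 𝓣 W Z v t + mm 𝓣 W Z v ^ 2) := by
    funext t
    unfold XC
    ring
  rw [e, av_add, av_add, av_mul, av_const]
  have e2 : av Finset.univ (fun t => Y 𝓣 W Z v t) = mm 𝓣 W Z v := rfl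
  rw [e2]
  ring

theorem var_close {B : ℝ} (hB : ∀ i, ∀ y ∈ Set.Icc (0 : ℝ) 1, |W i y| ≤ B) {Z : ℕ} (hZ : 2 ≤ Z)
    (v : HeightOneSpectrum (𝓞 K)) (hB0 : 0 ≤ B) : |av Finset.univ (fun t => XC 𝓣 W Z v t ^ 2) -
      yy Z v / nv v * (yy Z v * ∑ i, ∑ j, 𝓣.D i j * W i (yy Z v) * W j (yy Z v))| ≤
      cE 𝓣 B * (yy Z v / nv v * hh v) := by
  obtain ⟨h0, h1⟩ := yy_facts hZ v
  obtain ⟨hQ1, hQQ⟩ := sqrt_facts v
  have hq := nv_pos v
  have hQ0 : 0 < Real.sqrt (nv v) := by linarith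
  have hC := 𝓣.C_nonneg
  rw [XC_var]
  have e : av Finset.univ (fun t => Y 𝓣 W Z v t ^ 2) - mm 𝓣 W Z v ^ 2 -
      yy Z v / nv v * (yy Z v * ∑ i, ∑ j, 𝓣.D i j * W i (yy Z v) * W j (yy Z v)) =
      (∑ i, ∑ j, (yy Z v * W i (yy Z v)) * (yy Z v * W j (yy Z v)) / nv v *
        (av Finset.univ (fun t => 𝓣.a i v t * 𝓣.a j v t) / nv v - 𝓣.D i j)) - mm 𝓣 W Z v ^ 2 := by
    rw [av_Y2]
    have e1 : yy Z v / nv v * (yy Z v * ∑ i, ∑ j, 𝓣.D i j * W i (yy Z v) * W j (yy Z v)) =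
        ∑ i, ∑ j, (yy Z v * W i (yy Z v)) * (yy Z v * W j (yy Z v)) / nv v * 𝓣.D i j := by
      rw [← mul_assoc, Finset.mul_sum]
      refine Finset.sum_congr rfl fun i _ => ?_
      rw [Finset.mul_sum]
      refine Finset.sum_congr rfl fun j _ => ?_
      ring
    rw [e1, sub_right_comm, ← Finset.sum_sub_distrib]
    congr 1
    refine Finset.sum_congr rfl fun i _ => ?_
    rw [← Finset.sum_sub_distrib]
    refine Finset.sum_congr rfl fun j _ => ?_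
    ring
  rw [e]
  have h2 : |∑ i, ∑ j, (yy Z v * W i (yy Z v)) * (yy Z v * W j (yy Z v)) / nv v *
        (av Finset.univ (fun t => 𝓣.a i v t * 𝓣.a j v t) / nv v - 𝓣.D i j)| ≤
      (Fintype.card I : ℝ) ^ 2 * B ^ 2 * 𝓣.C * (yy Z v / nv v * hh v) := by
    have h3 : ∀ i ∈ (Finset.univ : Finset I), |∑ j, (yy Z v * W i (yy Z v)) * (yy Z v * W j (yy Z v)) / nv v *
        (av Finset.univ (fun t => 𝓣.a i v t * 𝓣.a j v t) / nv v - 𝓣.D i j)| ≤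
        Fintype.card I * (B ^ 2 * 𝓣.C * (yy Z v / nv v * hh v)) := by
      intro i _
      refine (Finset.abs_sum_le_sum_abs _ _).trans ?_
      have h4 : ∀ j ∈ (Finset.univ : Finset I), |(yy Z v * W i (yy Z v)) * (yy Z v * W j (yy Z v)) / nv v *
          (av Finset.univ (fun t => 𝓣.a i v t * 𝓣.a j v t) / nv v - 𝓣.D i j)| ≤
          B ^ 2 * 𝓣.C * (yy Z v / nv v * hh v) := by
        intro j _
        have g1 := hB i (yy Z v) ⟨h0, h1⟩
        have g2 := hB j (yy Z v) ⟨h0, h1⟩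
        have g3 := 𝓣.a_cov i j v
        rw [abs_mul, abs_div, abs_mul, abs_mul, abs_mul, abs_of_nonneg h0, abs_of_pos hq]
        have g4 : yy Z v * yy Z v ≤ yy Z v := mul_le_of_le_one_left h0 h1
        have hh0 := (hh_facts v).1
        calc (yy Z v * |W i (yy Z v)|) * (yy Z v * |W j (yy Z v)|) / nv v *
            |av Finset.univ (fun t => 𝓣.a i v t * 𝓣.a j v t) / nv v - 𝓣.D i j| ≤
            (yy Z v * B) * (yy Z v * B) / nv v * (𝓣.C * hh v) := by gcongr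
          _ = B ^ 2 * 𝓣.C * ((yy Z v * yy Z v) / nv v * hh v) := by ring
          _ ≤ _ := by gcongr
      refine (Finset.sum_le_sum h4).trans (le_of_eq ?_)
      rw [Finset.sum_const, Finset.card_univ, nsmul_eq_mul]
    refine (Finset.abs_sum_le_sum_abs _ _).trans ((Finset.sum_le_sum h3).trans (le_of_eq ?_))
    rw [Finset.sum_const, Finset.card_univ, nsmul_eq_mul]
    ring
  have h5 : mm 𝓣 W Z v ^ 2 ≤ (B * (∑ i, |𝓣.r i|) + cA 𝓣 B) ^ 2 * (yy Z v / nv v * hh v) := by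
    have h6 := mm_le (𝓣 := 𝓣) hB hZ v hB0
    rw [← sq_abs]
    refine (pow_le_pow_left₀ (abs_nonneg _) h6 2).trans ?_
    rw [mul_pow]
    refine mul_le_mul_of_nonneg_left ?_ (by positivity)
    have g4 : yy Z v * yy Z v ≤ yy Z v := mul_le_of_le_one_left h0 h1
    have g5 := (hh_facts v).2.2.2
    have hh0 := (hh_facts v).1
    calc (yy Z v / nv v) ^ 2 = (yy Z v * yy Z v) / nv v * (1 / (nv v : ℝ)) := by ring
      _ ≤ yy Z v / nv v * hh v := by gcongr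
  unfold cE
  rw [add_mul]
  refine (abs_sub _ _).trans (add_le_add h2 ?_)
  rw [abs_of_nonneg (sq_nonneg _)]
  exact h5

/-! ### the limits -/

theorem sum_mu (g : ℝ → ℝ) (hg : Continuous g) :
    Tendsto (fun Z => ∑ v ∈ SZ K Z, yy Z v / nv v * g (yy Z v)) atTop (𝓝 (∫ y in (0 : ℝ)..1, g y)) := by
  refine (main_sum K g hg).congr fun Z => ?_
  refine Finset.sum_congr rfl fun v hv => ?_
  rw [yy_eq hv]
  rfl

theorem sum_err : Tendsto (fun Z => ∑ v ∈ SZ K Z, yy Z v / nv v * hh v) atTop (𝓝 0) := by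
  refine (err_sum K).congr fun Z => ?_
  refine Finset.sum_congr rfl fun v hv => ?_
  rw [yy_eq hv]

theorem tendsto_of_close (f g : ℕ → HeightOneSpectrum (𝓞 K) → ℝ) (E : ℝ) {L : ℝ}
    (h : ∀ Z, 2 ≤ Z → ∀ v, |f Z v - g Z v| ≤ E * (yy Z v / nv v * hh v))
    (hg : Tendsto (fun Z => ∑ v ∈ SZ K Z, g Z v) atTop (𝓝 L)) : Tendsto (fun Z => ∑ v ∈ SZ K Z, f Z v) atTop (𝓝 L) := by
  have h1 : Tendsto (fun Z => ∑ v ∈ SZ K Z, f Z v - ∑ v ∈ SZ K Z, g Z v) atTop (𝓝 0) := by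
    have h2 := (sum_err (K := K)).const_mul E
    rw [mul_zero] at h2
    refine squeeze_zero_norm' (Filter.eventually_atTop.2 ⟨2, fun Z hZ => ?_⟩) h2
    rw [← Finset.sum_sub_distrib, Real.norm_eq_abs, Finset.mul_sum]
    exact (Finset.abs_sum_le_sum_abs _ _).trans (Finset.sum_le_sum fun v _ => h Z hZ v)
  have h3 := h1.add hg
  rw [zero_add] at h3
  exact h3.congr fun Z => by ring

theorem mm_tendsto (hW : ∀ i, Continuous (W i)) : Tendsto (fun Z => ∑ v ∈ SZ K Z, mm 𝓣 W Z v) atTop (𝓝 (mI 𝓣 W)) := by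
  obtain ⟨B, hB0, hB⟩ := exists_B W hW
  refine tendsto_of_close _ (fun Z v => yy Z v / nv v * ∑ i, 𝓣.r i * W i (yy Z v)) (cA 𝓣 B) (fun Z hZ v => mm_close hB hZ v) ?_
  exact sum_mu (fun y => ∑ i, 𝓣.r i * W i y) (continuous_finsetSum _ fun i _ => (hW i).const_mul _)

theorem var_tendsto (hW : ∀ i, Continuous (W i)) :
    Tendsto (fun Z => ∑ v ∈ SZ K Z, av Finset.univ (fun t => XC 𝓣 W Z v t ^ 2)) atTop (𝓝 (vI 𝓣 W)) := by
  obtain ⟨B, hB0, hB⟩ := exists_B W hW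
  refine tendsto_of_close _ (fun Z v => yy Z v / nv v * (yy Z v * ∑ i, ∑ j, 𝓣.D i j * W i (yy Z v) * W j (yy Z v))) (cE 𝓣 B)
    (fun Z hZ v => var_close hB hZ v hB0) ?_
  exact sum_mu (fun y => y * ∑ i, ∑ j, 𝓣.D i j * W i y * W j y) (continuous_id.mul
    (continuous_finsetSum _ fun i _ => continuous_finsetSum _ fun j _ => ((hW i).const_mul _).mul (hW j)))

theorem vI_nonneg (hW : ∀ i, Continuous (W i)) : 0 ≤ vI 𝓣 W :=
  ge_of_tendsto' (var_tendsto (𝓣 := 𝓣) hW) fun Z => Finset.sum_nonneg fun v _ => av_nonneg _ fun t => sq_nonneg _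

theorem cube_tendsto {A : ℝ} (hA : 0 ≤ A) : Tendsto (fun Z => ∑ v ∈ SZ K Z, (A * yy Z v / Real.sqrt (nv v)) ^ 3) atTop (𝓝 0) := by
  have h2 := (sum_err (K := K)).const_mul (A ^ 3)
  rw [mul_zero] at h2
  refine squeeze_zero' (Filter.eventually_atTop.2 ⟨2, fun Z hZ => Finset.sum_nonneg fun v _ => ?_⟩)
    (Filter.eventually_atTop.2 ⟨2, fun Z hZ => ?_⟩) h2
  · have := (yy_facts hZ v).1
    positivity
  · rw [Finset.mul_sum]
    refine Finset.sum_le_sum fun v _ => ?_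
    obtain ⟨h0, h1⟩ := yy_facts hZ v
    obtain ⟨hQ1, hQQ⟩ := sqrt_facts v
    have hQ0 : 0 < Real.sqrt (nv v) := by linarith
    have e : (A * yy Z v / Real.sqrt (nv v)) ^ 3 = A ^ 3 * (yy Z v ^ 3 / (nv v * Real.sqrt (nv v))) := by
      rw [div_pow, mul_pow, ← hQQ]
      have : Real.sqrt (Real.sqrt (nv v) * Real.sqrt (nv v)) = Real.sqrt (nv v) := by rw [hQQ]
      rw [this]
      ring
    rw [e]
    refine mul_le_mul_of_nonneg_left ?_ (by positivity)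
    have hq := nv_pos v
    have g3 : yy Z v ^ 3 ≤ yy Z v := by
      calc yy Z v ^ 3 = yy Z v * yy Z v ^ 2 := by ring
        _ ≤ yy Z v * 1 := mul_le_mul_of_nonneg_left (pow_le_one₀ h0 h1) h0
        _ = _ := mul_one _
    have g5 := (hh_facts v).2.2.1
    have hh0 := (hh_facts v).1
    calc yy Z v ^ 3 / (nv v * Real.sqrt (nv v)) = yy Z v ^ 3 / nv v * (1 / Real.sqrt (nv v)) := by field_simp
      _ ≤ yy Z v / nv v * hh v := by gcongr

theorem sq_bound' {A : ℝ} : ∃ Z₀ : ℕ, ∀ Z, Z₀ ≤ Z → ∑ v ∈ SZ K Z, (A * yy Z v / Real.sqrt (nv v)) ^ 2 ≤ 2 * A ^ 2 + 1 := by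
  have h1 := sum_mu (K := K) (fun _ => (1 : ℝ)) continuous_const
  rw [intervalIntegral.integral_const, sub_zero, one_smul] at h1
  obtain ⟨N, hN⟩ := (Metric.tendsto_atTop.1 h1) 1 one_pos
  refine ⟨max N 2, fun Z hZ => ?_⟩
  have h2 := hN Z ((le_max_left _ _).trans hZ)
  rw [Real.dist_eq] at h2
  have h3 := (abs_lt.1 h2).2
  have hZ2 : 2 ≤ Z := (le_max_right _ _).trans hZ
  have h4 : ∑ v ∈ SZ K Z, (A * yy Z v / Real.sqrt (nv v)) ^ 2 ≤ A ^ 2 * ∑ v ∈ SZ K Z, yy Z v / nv v * 1 := by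
    rw [Finset.mul_sum]
    refine Finset.sum_le_sum fun v _ => ?_
    obtain ⟨h0, h1⟩ := yy_facts hZ2 v
    obtain ⟨hQ1, hQQ⟩ := sqrt_facts v
    have hq := nv_pos v
    rw [div_pow, Real.sq_sqrt hq.le, mul_pow, mul_one, mul_div_assoc]
    refine mul_le_mul_of_nonneg_left (div_le_div_of_nonneg_right ?_ hq.le) (by positivity)
    rw [sq]
    exact mul_le_of_le_one_left h0 h1
  have h5 : 0 ≤ A ^ 2 := by positivity
  nlinarith

theorem small {A : ℝ} (hA : 0 ≤ A) : ∃ Z₀ : ℕ, ∀ Z, Z₀ ≤ Z → ∀ v ∈ SZ K Z, A * yy Z v / Real.sqrt (nv v) ≤ 1 := by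
  have hlog : Tendsto (fun Z : ℕ => Real.log (Z : ℝ)) atTop atTop := Real.tendsto_log_atTop.comp tendsto_natCast_atTop_atTop
  obtain ⟨N, hN⟩ := Filter.eventually_atTop.1 (hlog.eventually_ge_atTop (2 * A))
  refine ⟨max N 2, fun Z hZ v hv => ?_⟩
  have h1 := hN Z ((le_max_left _ _).trans hZ)
  have hl := log_Z_pos ((le_max_right _ _).trans hZ)
  obtain ⟨hQ1, hQQ⟩ := sqrt_facts v
  have hQ0 : 0 < Real.sqrt (nv v) := by linarith
  have hq := nv_pos v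
  rw [yy_eq hv, div_le_one hQ0]
  unfold xx
  have h2 := Real.log_le_rpow_div (x := (nv v : ℝ)) hq.le (show (0 : ℝ) < 1 / 2 by norm_num)
  rw [← Real.sqrt_eq_rpow] at h2
  have h3 : Real.log (nv v) ≤ 2 * Real.sqrt (nv v) := by
    refine h2.trans (le_of_eq ?_)
    ring
  rw [← mul_div_assoc, div_le_iff₀ hl]
  calc A * Real.log (nv v) ≤ A * (2 * Real.sqrt (nv v)) := mul_le_mul_of_nonneg_left h3 hA
    _ = Real.sqrt (nv v) * (2 * A) := by ring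
    _ ≤ Real.sqrt (nv v) * Real.log Z := mul_le_mul_of_nonneg_left h1 hQ0.le

end

end Run7.h876.MN
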