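import Pool.Agent.Run7.h876.MN.Fin

/-!
# Weighted sums for one motive
-/

set_option autoImplicit false
set_option linter.unusedSectionVars false

namespace Run7.h876.MN

open NumberField IsDedekindDomain Finset Filter Topology
open Run7.h876.MM (nv kv two_le_nv nv_pos avg norm_avg_le SZ mem_SZ card_SZ instFieldKv instFintypeKv instDecKv)
open Run7.h876.EN Run7.h876.PW
open Run7.h9.BS (prop Phi)

section
variable {K : Type} [Field K] [NumberField K] {J : Type} [Fintype J] [DecidableEq J]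
variable {ι : Type} [Fintype ι] [DecidableEq ι] (ω : Module.Basis ι ℤ (𝓞 K)) {G : Set (J → 𝓞 K)} {Cb : ℝ}
variable {𝓣 : TraceData K J Unit} {r : ℝ} (hr : 𝓣.r = fun _ => r) (hD : 𝓣.D = fun _ _ => 1)
  (S : ℕ → (ℝ → ℝ) → (J → 𝓞 K) → ℝ) (hS : ∀ Z W t, SW 𝓣 (fun _ => W) Z t = S Z W t)

include hr in
theorem one_mI (W : ℝ → ℝ) : mI 𝓣 (fun _ => W) = r * ∫ y in (0 : ℝ)..1, W y := by
  unfold mI
  rw [← intervalIntegral.integral_const_mul]
  congr 1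
  funext y
  rw [hr]
  simp

include hD in
theorem one_vI (W : ℝ → ℝ) : vI 𝓣 (fun _ => W) = ∫ y in (0 : ℝ)..1, y * W y ^ 2 := by
  unfold vI
  congr 1
  funext y
  rw [hD]
  simp [sq]

include hr hD hS in
theorem one_clt (hCb : 0 ≤ Cb) (hG : Thin ω G Cb) (W : ℝ → ℝ) (hW : Continuous W) (hV : 0 < ∫ y in (0 : ℝ)..1, y * W y ^ 2) (a : ℝ)
    {ε : ℝ} (hε : 0 < ε) : ∃ C Z₀ : ℕ, ∀ Z : ℕ, Z₀ ≤ Z → ∀ H : J → ℕ, (∀ j, Z ^ C ≤ H j) →
      |prop ω H G (fun t => S Z W t ≤ r * (∫ y in (0 : ℝ)..1, W y) + a * Real.sqrt (∫ y in (0 : ℝ)..1, y * W y ^ 2)) - Phi a| ≤ ε := by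
  have h := clt' ω 𝓣 (fun _ => W) (fun _ => hW) hCb hG (by rw [one_vI hD]; exact hV) a hε
  simp only [one_mI hr, one_vI hD, hS] at h
  exact h

include hr hD hS in
theorem one_near (hCb : 0 ≤ Cb) (hG : Thin ω G Cb) (W : ℝ → ℝ) (hW : Continuous W) (h1 : (∫ y in (0 : ℝ)..1, W y) = 1)
    {ε : ℝ} (hε : 0 < ε) : ∃ C Z₀ : ℕ, ∀ Z : ℕ, Z₀ ≤ Z → ∀ H : J → ℕ, (∀ j, Z ^ C ≤ H j) →
      |prop ω H G (fun t => |S Z W t - r| < 1 / 2) -
        (Phi (1 / 2 / Real.sqrt (∫ y in (0 : ℝ)..1, y * W y ^ 2)) - Phi (-(1 / 2 / Real.sqrt (∫ y in (0 : ℝ)..1, y * W y ^ 2))))| ≤ ε := by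
  have h := law_near ω 𝓣 (fun _ => W) (fun _ => hW) hCb hG (by rw [one_vI hD]; exact weight_pos hW (by rw [h1]; exact one_ne_zero))
    (b := 1 / 2) (by norm_num) hε
  simp only [one_mI hr, one_vI hD, hS, h1, mul_one] at h
  exact h

include hr hD hS in
theorem one_good {ε : ℝ} (hε : 0 < ε) : ∃ W : ℝ → ℝ, Continuous W ∧ (∫ y in (0 : ℝ)..1, W y) = 1 ∧
    ∀ (ι : Type) [Fintype ι] [DecidableEq ι] (ω : Module.Basis ι ℤ (𝓞 K)) (G : Set (J → 𝓞 K)) (Cb : ℝ), 0 ≤ Cb → Thin ω G Cb →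
      ∃ C Z₀ : ℕ, ∀ Z : ℕ, Z₀ ≤ Z → ∀ H : J → ℕ, (∀ j, Z ^ C ≤ H j) →
      1 - ε ≤ prop ω H G (fun t => |S Z W t - r| < 1 / 2) := by
  have hδ0 : 0 < ε / 2 := by linarith
  obtain ⟨R, hR0, hR⟩ := Phi_large hδ0
  obtain ⟨W, hW, h1, h2⟩ := good_weight (δ := (1 / (2 * R)) ^ 2) (by positivity)
  refine ⟨W, hW, h1, fun ι _ _ ω G Cb hCb hG => ?_⟩
  have hV := weight_pos hW (by rw [h1]; exact one_ne_zero)
  have hσ : 0 < Real.sqrt (∫ y in (0 : ℝ)..1, y * W y ^ 2) := Real.sqrt_pos.2 hV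
  have hσ2 : Real.sqrt (∫ y in (0 : ℝ)..1, y * W y ^ 2) ≤ 1 / (2 * R) := by
    rw [Real.sqrt_le_left (by positivity)]
    exact h2
  have hb : R ≤ 1 / 2 / Real.sqrt (∫ y in (0 : ℝ)..1, y * W y ^ 2) := by
    rw [le_div_iff₀ hσ]
    calc R * Real.sqrt (∫ y in (0 : ℝ)..1, y * W y ^ 2) ≤ R * (1 / (2 * R)) := mul_le_mul_of_nonneg_left hσ2 hR0.le
      _ = 1 / 2 := by field_simp
  have hΦ := hR _ hb
  obtain ⟨C, Z₀, h⟩ := one_near ω hr hD S hS hCb hG W hW h1 hδ0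
  refine ⟨C, Z₀, fun Z hZ H hH => ?_⟩
  have h4 := (abs_le.1 (h Z hZ H hH)).1
  linarith

include hr in
/-- The mean of the local means. -/
theorem one_mean (W : ℝ → ℝ) (hW : Continuous W) : Tendsto (fun Z : ℕ => -((∑ v ∈ SZ K Z, av Finset.univ (𝓣.a () v) *
    (Real.log (nv v) / nv v) * W (Real.log (nv v) / Real.log Z)) / Real.log Z)) atTop (𝓝 (r * ∫ y in (0 : ℝ)..1, W y)) := by
  have h := mm_tendsto (𝓣 := 𝓣) (W := fun _ => W) (fun _ => hW)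
  rw [one_mI hr] at h
  refine h.congr fun Z => ?_
  rw [Finset.sum_div, ← Finset.sum_neg_distrib]
  refine Finset.sum_congr rfl fun v hv => ?_
  rw [av_Y, yy_eq hv]
  unfold xx
  simp only [Finset.univ_unique, Finset.sum_singleton]
  ring

end

/-- The data of a single function. -/
theorem one_data {K : Type} [Field K] [NumberField K] {J : Type} [Fintype J] [DecidableEq J]
    (a : ∀ v : HeightOneSpectrum (𝓞 K), (J → kv v) → ℝ) (r : ℝ) {C₀ : ℝ} (hC₀ : 0 ≤ C₀)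
    (a_le : ∀ v t, |a v t| ≤ C₀ * Real.sqrt (nv v)) {S : Set (HeightOneSpectrum (𝓞 K))} (hS : S.Finite)
    (h1 : ∀ v, v ∉ S → |av Finset.univ (a v) + r| ≤ C₀ * hh v)
    (h2 : ∀ v, v ∉ S → |av Finset.univ (fun t => (a v t + r) ^ 2) - nv v| ≤ C₀ * (nv v : ℝ) ^ (1 / 2 : ℝ)) :
    ∃ 𝓣 : TraceData K J Unit, 𝓣.a = (fun _ => a) ∧ 𝓣.r = (fun _ => r) ∧ 𝓣.D = (fun _ _ => 1) := by
  obtain ⟨C, hC⟩ : ∃ C : ℝ, C = C₀ + 2 * |r| * C₀ + r ^ 2 := ⟨_, rfl⟩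
  have hC0 : 0 ≤ C := by rw [hC]; positivity
  have hCC : C₀ ≤ C := by
    have : 0 ≤ 2 * |r| * C₀ + r ^ 2 := by positivity
    rw [hC]; linarith
  refine exists_data (fun _ => a) (fun _ => r) (fun _ _ => 1) (C₀ := C) hC0 (fun _ v t => (a_le v t).trans
    (mul_le_mul_of_nonneg_right hCC (Real.sqrt_nonneg _))) hS (fun _ v hv => (h1 v hv).trans
    (mul_le_mul_of_nonneg_right hCC (hh_facts v).1.le)) (fun _ _ v hv => ?_)
  obtain ⟨hh0, hh1, hh2, hh3⟩ := hh_facts v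
  have hq := nv_pos v
  have e : av Finset.univ (fun t => a v t * a v t) = (av Finset.univ (fun t => (a v t + r) ^ 2) - nv v) -
      2 * r * (av Finset.univ (a v) + r) + r ^ 2 + nv v := by
    have e1 : (fun t => (a v t + r) ^ 2) = fun t => a v t * a v t + ((2 * r) * a v t + r ^ 2) := by
      funext t
      ring
    rw [e1, av_add, av_add, av_mul, av_const]
    have e2 : av Finset.univ (fun t => a v t) = av Finset.univ (a v) := rfl
    rw [e2]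
    ring
  have e3 : av Finset.univ (fun t => a v t * a v t) / nv v - 1 = ((av Finset.univ (fun t => (a v t + r) ^ 2) - nv v) -
      2 * r * (av Finset.univ (a v) + r) + r ^ 2) / nv v := by
    rw [e]
    field_simp
    ring
  have hroot : (nv v : ℝ) ^ (1 / 2 : ℝ) / nv v = 1 / Real.sqrt (nv v) := by
    rw [← Real.sqrt_eq_rpow, div_eq_div_iff hq.ne' (Real.sqrt_pos.2 hq).ne', one_mul, Real.mul_self_sqrt hq.le]
  rw [e3, abs_div, abs_of_pos hq]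
  have h3 : |(av Finset.univ (fun t => (a v t + r) ^ 2) - nv v) - 2 * r * (av Finset.univ (a v) + r) + r ^ 2| ≤
      C₀ * (nv v : ℝ) ^ (1 / 2 : ℝ) + 2 * |r| * C₀ * hh v + r ^ 2 := by
    refine (abs_add_le _ _).trans (add_le_add ((abs_sub _ _).trans (add_le_add (h2 v hv) ?_)) (abs_of_nonneg (sq_nonneg _)).le)
    rw [abs_mul, abs_mul, abs_two, mul_assoc (2 * |r|)]
    exact mul_le_mul_of_nonneg_left (h1 v hv) (by positivity)
  refine (div_le_div_of_nonneg_right h3 hq.le).trans ?_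
  have e4 : (C₀ * (nv v : ℝ) ^ (1 / 2 : ℝ) + 2 * |r| * C₀ * hh v + r ^ 2) / nv v =
      C₀ * ((nv v : ℝ) ^ (1 / 2 : ℝ) / nv v) + (2 * |r| * C₀ * hh v) * (1 / nv v) + r ^ 2 * (1 / nv v) := by ring
  rw [e4, hroot, hC]
  have g1 : C₀ * (1 / Real.sqrt (nv v)) ≤ C₀ * hh v := mul_le_mul_of_nonneg_left hh2 hC₀
  have g2 : (2 * |r| * C₀ * hh v) * (1 / nv v) ≤ (2 * |r| * C₀) * hh v := by
    refine mul_le_of_le_one_right (by positivity) (hh3.trans hh1)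
  have g3 : r ^ 2 * (1 / nv v) ≤ r ^ 2 * hh v := mul_le_mul_of_nonneg_left hh3 (sq_nonneg _)
  linarith

end Run7.h876.MN
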