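import Pool.Agent.Run7.h876.LN.Defs
import Pool.Agent.Run7.h9.BS.Defs

/-!
# Nagao sums of the curves of a linear system on a surface: definitions
-/

set_option autoImplicit false

namespace Run7.h876.MN

open NumberField IsDedekindDomain
open Run7.h876.MM (nv kv instFieldKv instFintypeKv SZ)
open Run7.h876.LS (form res)
open Run7.h876.LN (ptsX)

section
variable {K : Type} [Field K] [NumberField K] {L J : Type} [Fintype J] [DecidableEq J] {n : ℕ}
  (g : L → MvPolynomial (Fin (n + 1)) (𝓞 K)) (f : J → MvPolynomial (Fin (n + 1)) (𝓞 K)) (Δ : MvPolynomial J (𝓞 K))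

/-- The trace of Frobenius on `H¹` of the curve `X_c : g = 0, ∑ c_j f_j = 0` over the residue field `k_v`,
`Nv + 1 - #X_c(k_v)`. -/
noncomputable def fibreTrace (v : HeightOneSpectrum (𝓞 K)) (c : J → kv v) : ℝ :=
  (nv v : ℝ) + 1 - ptsX g (res v) (form f (res v) c)

open Classical in
/-- **The fibre average** of the traces over the members `X_c`, `c ∈ k_v^J`, with `Δ(c) ≠ 0`, divided by the number
`Nv^|J|` of all `c`. -/
noncomputable def fibreAverage (v : HeightOneSpectrum (𝓞 K)) : ℝ :=
  (∑ c : J → kv v, if MvPolynomial.eval c (MvPolynomial.map (res v) Δ) = 0 then 0 else fibreTrace g f v c) /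
    (nv v : ℝ) ^ Fintype.card J

open Classical in
/-- **The Nagao sum** of length `Z` with the weight `W` of the member `X_t`:
`-(1 / log Z) ∑ a_v(X_t) (log Nv / Nv) W(log Nv / log Z)` over the places `Nv ≤ Z` which do not divide `Δ(t)`. -/
noncomputable def nagaoSum (Z : ℕ) (W : ℝ → ℝ) (t : J → 𝓞 K) : ℝ :=
  -((∑ v ∈ SZ K Z, if MvPolynomial.eval t Δ ∈ v.asIdeal then 0 else
    fibreTrace g f v (fun j => res v (t j)) * (Real.log (nv v) / nv v) * W (Real.log (nv v) / Real.log Z)) / Real.log Z)

end

end Run7.h876.MN
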