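import Pool.Agent.Run7.h876.MN.One
import Pool.Agent.Run7.h876.MN.SurfDefs
import Pool.Agent.Run7.h876.LN.Main

/-!
# Nagao sums of the curves of a linear system on a surface
-/

set_option autoImplicit false
set_option linter.unusedSectionVars false

namespace Run7.h876.MN

open NumberField IsDedekindDomain Finset Filter Topology
open Run7.h876.MM (nv kv two_le_nv nv_pos avg norm_avg_le SZ mem_SZ card_SZ card_kv instFieldKv instFintypeKv instDecKv)
open Run7.h876.EN Run7.h876.PW
open Run7.h876.LS (form res lift res_lift eval_form)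
open Run7.h876.LN
open Run7.h9.BS (prop Phi)

section
variable {K : Type} [Field K] [NumberField K] {L J : Type} [Fintype J] [DecidableEq J] {n : ℕ}
  (g : L → MvPolynomial (Fin (n + 1)) (𝓞 K)) (f : J → MvPolynomial (Fin (n + 1)) (𝓞 K)) (Δ : MvPolynomial J (𝓞 K))
  {b : ℕ} {α : (J → 𝓞 K) → HeightOneSpectrum (𝓞 K) → Fin b → ℂ} (hα : ∀ t, IsFrob g f Δ b t (α t))

theorem ln_data (hΔ : Δ ≠ 0) {S : Set (HeightOneSpectrum (𝓞 K))} (hS : S.Finite) {d ρ e r : ℕ} {C₀ : ℝ} (hC₀ : 0 ≤ C₀)
    (H : Hyp g f S d ρ e r C₀) : ∃ 𝓣 : TraceData K J Unit, 𝓣.a = (fun _ v c => trN g f Δ hα v c 0) ∧ 𝓣.r = (fun _ => (r : ℝ)) ∧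
      𝓣.D = (fun _ _ => 1) := by
  have hCM : 0 ≤ CM ρ e r C₀ Δ.totalDegree := CM_nonneg (by positivity) (by positivity) (by positivity) hC₀ (by positivity)
  refine one_data (fun v c => trN g f Δ hα v c 0) r (C₀ := CM ρ e r C₀ Δ.totalDegree + b) (by positivity) (fun v t => ?_)
    (hS.union (LN.finite_bad hΔ)) (fun v hv => ?_) (fun v hv => ?_)
  · have h1 := trN_bound g f Δ hα v t 0
    rw [zero_add, pow_one] at h1
    refine h1.trans (mul_le_mul_of_nonneg_right (by linarith) (Real.sqrt_nonneg _))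
  · have h1 := (main_mom g f Δ hα hC₀ H hv).1
    rw [av_eq]
    refine h1.trans (mul_le_mul_of_nonneg_right ?_ (hh_facts v).1.le)
    have : (0 : ℝ) ≤ b := by positivity
    linarith
  · have h1 := (main_mom g f Δ hα hC₀ H hv).2.1
    rw [av_eq]
    refine h1.trans (mul_le_mul_of_nonneg_right ?_ (by have := (nv_pos v).le; positivity))
    have : (0 : ℝ) ≤ b := by positivity
    linarith

theorem trN_pts {v : HeightOneSpectrum (𝓞 K)} {c : J → kv v} (h : MvPolynomial.eval c (Δv Δ v) ≠ 0) :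
    trN g f Δ hα v c 0 = fibreTrace g f v c := by
  rw [trN_zero g f Δ hα h]
  unfold fibreTrace ptsX
  congr 2
  exact Nat.card_congr (Equiv.subtypeEquivRight fun p => by rw [eval_form])

theorem av_trN (v : HeightOneSpectrum (𝓞 K)) : av Finset.univ (fun c => trN g f Δ hα v c 0) = fibreAverage g f Δ v := by
  classical
  rw [av_eq]
  unfold fibreAverage
  have e1 : (Fintype.card (J → kv v) : ℝ) = (nv v : ℝ) ^ Fintype.card J := by
    rw [Fintype.card_fun, card_kv]
    push_cast
    rfl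
  rw [e1]
  congr 1
  refine Finset.sum_congr rfl fun c _ => ?_
  by_cases h : MvPolynomial.eval c (Δv Δ v) = 0
  · have h' : MvPolynomial.eval c (MvPolynomial.map (res v) Δ) = 0 := h
    rw [if_pos h']
    unfold trN
    rw [if_pos h]
  · have h' : ¬ MvPolynomial.eval c (MvPolynomial.map (res v) Δ) = 0 := h
    rw [if_neg h', trN_pts g f Δ hα h]

theorem SW_ln {𝓣 : TraceData K J Unit} (ha : 𝓣.a = (fun _ v c => trN g f Δ hα v c 0)) (Z : ℕ) (W : ℝ → ℝ) (t : J → 𝓞 K) :
    SW 𝓣 (fun _ => W) Z t = nagaoSum g f Δ Z W t := by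
  classical
  unfold SW Y nagaoSum
  rw [Finset.sum_neg_distrib]
  congr 1
  rw [Finset.sum_div]
  refine Finset.sum_congr rfl fun v hv => ?_
  rw [yy_eq hv, ha]
  simp only [Finset.univ_unique, Finset.sum_singleton]
  split_ifs with h
  · rw [trN_bad g f Δ hα h]
    ring
  · have h1 : MvPolynomial.eval (rd v t) (Δv Δ v) ≠ 0 := fun h2 => h ((mem_iff Δ v t).2 h2)
    rw [trN_pts g f Δ hα h1]
    have h2 : (rd v t : J → kv v) = fun j => res v (t j) := rfl
    rw [h2]
    unfold xx
    ring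

end

end Run7.h876.MN
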